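import Mathlib

/-!
# Signed blocks whose sums nearly vanish

A set of more than `t` elements contains a nonempty signed subset whose sum in an abelian group is
zero and whose sums for `m` real forms are nearly zero; hence all but `t` elements of a set can be
split into such signed blocks.
-/

set_option autoImplicit false

namespace Pool.Agent.H40.AE

open Finset

variable {ι : Type*} [DecidableEq ι] {G : Type*} [AddCommGroup G]

/-- The signed sum. -/
def sgn {H : Type*} [AddCommGroup H] (e : ι → Bool) (g : ι → H) (u : ι) : H :=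
  if e u then g u else - g u

theorem sum_sdiff_swap {H : Type*} [AddCommGroup H] (S1 S2 : Finset ι) (f : ι → H) :
    ∑ u ∈ S1 \ S2, f u - ∑ u ∈ S2 \ S1, f u = ∑ u ∈ S1, f u - ∑ u ∈ S2, f u := by
  have e1 := Finset.sum_inter_add_sum_sdiff S1 S2 f
  have e2 := Finset.sum_inter_add_sum_sdiff S2 S1 f
  rw [Finset.inter_comm] at e2
  rw [← e1, ← e2]
  abel

theorem sgn_sum {H : Type*} [AddCommGroup H] (S S' : Finset ι) (hd : Disjoint S S')
    (e : ι → Bool) (h1 : ∀ u ∈ S, e u = true) (h2 : ∀ u ∈ S', e u = false) (f : ι → H) :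
    ∑ u ∈ S ∪ S', sgn e f u = ∑ u ∈ S, f u - ∑ u ∈ S', f u := by
  rw [Finset.sum_union hd, sub_eq_add_neg, ← Finset.sum_neg_distrib]
  congr 1
  · refine Finset.sum_congr rfl fun u hu => ?_
    unfold sgn
    rw [h1 u hu]
    rfl
  · refine Finset.sum_congr rfl fun u hu => ?_
    unfold sgn
    rw [h2 u hu]
    rfl

omit [DecidableEq ι] in
theorem sgn_congr {H : Type*} [AddCommGroup H] (s : Finset ι) (e e' : ι → Bool)
    (h : ∀ u ∈ s, e' u = e u) (f : ι → H) :
    ∑ u ∈ s, sgn e' f u = ∑ u ∈ s, sgn e f u := by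
  refine Finset.sum_congr rfl fun u hu => ?_
  unfold sgn
  rw [h u hu]

theorem exists_block (T : Finset ι) (g : ι → G) (m : ℕ) (w : Fin m → ι → ℝ) (W : Fin m → ℝ)
    (hW0 : ∀ i, 0 ≤ W i) (hW : ∀ i, ∀ u ∈ T, |w i u| ≤ W i) (n N : ℕ) (hT : T.card ≤ n)
    (F : Finset G) (hF : ∀ S ⊆ T, ∑ u ∈ S, g u ∈ F) (hN : F.card ≤ N)
    (hc : N * (n + 1) ^ (2 * m) < 2 ^ T.card) :
    ∃ S ⊆ T, ∃ S' ⊆ T, Disjoint S S' ∧ (S ∪ S').Nonempty ∧ ∑ u ∈ S, g u = ∑ u ∈ S', g u ∧
      ∀ i, |∑ u ∈ S, w i u - ∑ u ∈ S', w i u| * (n + 1) ≤ W i := by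
  classical
  let base : Fin m → ℝ := fun i => ∑ u ∈ T, min (w i u) 0
  have hlow : ∀ i, ∀ S ⊆ T, 0 ≤ ∑ u ∈ S, w i u - base i := by
    intro i S hS
    have h1 : base i ≤ ∑ u ∈ S, min (w i u) 0 := by
      show ∑ u ∈ T, min (w i u) 0 ≤ _
      rw [← Finset.sum_sdiff hS]
      have : ∑ u ∈ T \ S, min (w i u) 0 ≤ 0 :=
        Finset.sum_nonpos fun u _ => min_le_right _ _
      linarith
    have h2 : ∑ u ∈ S, min (w i u) 0 ≤ ∑ u ∈ S, w i u :=
      Finset.sum_le_sum fun u _ => min_le_left _ _
    linarith
  have hupp : ∀ i, ∀ S ⊆ T, ∑ u ∈ S, w i u - base i ≤ T.card * W i := by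
    intro i S hS
    have h1 : ∑ u ∈ S, w i u ≤ ∑ u ∈ T, max (w i u) 0 := by
      rw [← Finset.sum_sdiff hS]
      have h2 : ∑ u ∈ S, w i u ≤ ∑ u ∈ S, max (w i u) 0 :=
        Finset.sum_le_sum fun u _ => le_max_left _ _
      have h3 : 0 ≤ ∑ u ∈ T \ S, max (w i u) 0 :=
        Finset.sum_nonneg fun u _ => le_max_right _ _
      linarith
    have h4 : ∑ u ∈ T, max (w i u) 0 - base i = ∑ u ∈ T, |w i u| := by
      show ∑ u ∈ T, max (w i u) 0 - ∑ u ∈ T, min (w i u) 0 = _
      rw [← Finset.sum_sub_distrib]
      refine Finset.sum_congr rfl fun u _ => ?_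
      rcases le_total 0 (w i u) with h | h
      · rw [max_eq_left h, min_eq_right h, abs_of_nonneg h, sub_zero]
      · rw [max_eq_right h, min_eq_left h, abs_of_nonpos h, zero_sub]
    have h5 : ∑ u ∈ T, |w i u| ≤ T.card * W i := by
      have := Finset.sum_le_card_nsmul T (fun u => |w i u|) (W i) (hW i)
      rwa [nsmul_eq_mul] at this
    linarith
  let cell : Fin m → Finset ι → ℕ := fun i S => ⌊(∑ u ∈ S, w i u - base i) * (n + 1) / W i⌋₊
  have hcell : ∀ i, ∀ S ⊆ T, cell i S < (n + 1) ^ 2 := by
    intro i S hS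
    have h1 : (∑ u ∈ S, w i u - base i) * (n + 1) / W i ≤ (n : ℝ) * (n + 1) := by
      rcases (hW0 i).lt_or_eq with h | h
      · rw [div_le_iff₀ h]
        have h2 := hupp i S hS
        have h3 : (T.card : ℝ) ≤ n := by exact_mod_cast hT
        have h4 : (T.card : ℝ) * W i ≤ n * W i := mul_le_mul_of_nonneg_right h3 h.le
        have h5 : (0 : ℝ) ≤ (n : ℝ) + 1 := by positivity
        calc (∑ u ∈ S, w i u - base i) * (n + 1) ≤ (n * W i) * (n + 1) :=
              mul_le_mul_of_nonneg_right (h2.trans h4) h5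
          _ = (n : ℝ) * (n + 1) * W i := by ring
      · rw [← h, div_zero]
        positivity
    have h2 : cell i S ≤ n * (n + 1) := by
      apply Nat.floor_le_of_le
      rw [Nat.cast_mul]
      push_cast
      exact h1
    calc cell i S ≤ n * (n + 1) := h2
      _ < (n + 1) ^ 2 := by nlinarith
  obtain ⟨S1, h1, S2, h2, hne, heq⟩ := Finset.exists_ne_map_eq_of_card_lt_of_maps_to
    (s := T.powerset) (t := F ×ˢ Fintype.piFinset fun _ : Fin m => Finset.range ((n + 1) ^ 2))
    (f := fun S => (∑ u ∈ S, g u, fun i => cell i S)) (by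
      rw [Finset.card_product, Fintype.card_piFinset, Finset.card_powerset]
      refine lt_of_le_of_lt ?_ hc
      simp only [Finset.card_range, Finset.prod_const, Finset.card_univ, Fintype.card_fin]
      rw [← pow_mul]
      exact Nat.mul_le_mul_right _ hN) (by
      intro S hS
      rw [Finset.mem_coe, Finset.mem_powerset] at hS
      rw [Finset.mem_coe, Finset.mem_product]
      refine ⟨hF S hS, ?_⟩
      rw [Fintype.mem_piFinset]
      intro i
      rw [Finset.mem_range]
      exact hcell i S hS)
  rw [Finset.mem_powerset] at h1 h2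
  have hg : ∑ u ∈ S1, g u = ∑ u ∈ S2, g u := congrArg Prod.fst heq
  have hcl : ∀ i, cell i S1 = cell i S2 := fun i => congrFun (congrArg Prod.snd heq) i
  refine ⟨S1 \ S2, Finset.sdiff_subset.trans h1, S2 \ S1, Finset.sdiff_subset.trans h2,
    disjoint_sdiff_sdiff, ?_, ?_, ?_⟩
  · by_contra hcon
    rw [Finset.not_nonempty_iff_eq_empty, Finset.union_eq_empty, Finset.sdiff_eq_empty_iff_subset,
      Finset.sdiff_eq_empty_iff_subset] at hcon
    exact hne (Finset.Subset.antisymm hcon.1 hcon.2)
  · have := sum_sdiff_swap S1 S2 g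
    rw [hg, sub_self] at this
    exact sub_eq_zero.1 this
  · intro i
    have e := sum_sdiff_swap S1 S2 (w i)
    rw [e]
    rcases (hW0 i).lt_or_eq with h | h
    · have hn : (0 : ℝ) < (n : ℝ) + 1 := by positivity
      set p := (∑ u ∈ S1, w i u - base i) * (n + 1) / W i with hp
      set q := (∑ u ∈ S2, w i u - base i) * (n + 1) / W i with hq
      have hp0 : 0 ≤ p := by
        have := hlow i S1 h1
        positivity
      have hq0 : 0 ≤ q := by
        have := hlow i S2 h2
        positivity
      have hfl : ⌊p⌋₊ = ⌊q⌋₊ := hcl i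
      have hab : |p - q| ≤ 1 := by
        have a1 := Nat.floor_le hp0
        have a2 := Nat.lt_floor_add_one p
        have b1 := Nat.floor_le hq0
        have b2 := Nat.lt_floor_add_one q
        rw [hfl] at a1 a2
        rw [abs_le]
        constructor <;> linarith
      have hpq : p - q = (∑ u ∈ S1, w i u - ∑ u ∈ S2, w i u) * (n + 1) / W i := by
        rw [hp, hq]
        ring
      rw [hpq, abs_div, abs_mul, abs_of_pos h, abs_of_pos hn, div_le_one h] at hab
      exact hab
    · have hz : ∀ u ∈ T, w i u = 0 := by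
        intro u hu
        have := hW i u hu
        rw [← h] at this
        exact abs_nonpos_iff.1 this
      rw [Finset.sum_eq_zero fun u hu => hz u (h1 hu), Finset.sum_eq_zero fun u hu => hz u (h2 hu),
        ← h]
      simp

theorem exists_blocks (g : ι → G) (m : ℕ) (w : Fin m → ι → ℝ) (W : Fin m → ℝ)
    (hW0 : ∀ i, 0 ≤ W i) (n N t : ℕ) (ht : N * (n + 1) ^ (2 * m) < 2 ^ (t + 1)) (F : Finset G)
    (hN : F.card ≤ N) : ∀ (V : Finset ι), V.card ≤ n → (∀ i, ∀ u ∈ V, |w i u| ≤ W i) →
      (∀ S ⊆ V, ∑ u ∈ S, g u ∈ F) →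
      ∃ (ν : ℕ) (β : ι → Option (Fin ν)) (e : ι → Bool), ν ≤ V.card ∧
        (∀ u, β u ≠ none → u ∈ V) ∧ (V.filter fun u => β u = none).card ≤ t ∧
        (∀ B, (V.filter fun u => β u = some B).card ≤ t + 1) ∧
        (∀ B, ∑ u ∈ V.filter (fun u => β u = some B), sgn e g u = 0) ∧
        ∀ B i, |∑ u ∈ V.filter (fun u => β u = some B), sgn e (w i) u| * (n + 1) ≤ W i := by
  intro V
  induction V using Finset.strongInduction with
  | H V ih =>
    intro hV hW hF
    by_cases hc : V.card ≤ t
    · refine ⟨0, fun _ => none, fun _ => true, Nat.zero_le _, fun u h => absurd rfl h, ?_,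
        fun B => B.elim0, fun B => B.elim0, fun B => B.elim0⟩
      exact (Finset.card_filter_le _ _).trans hc
    · obtain ⟨T, hTV, hT⟩ := Finset.exists_subset_card_eq (s := V) (n := t + 1) (by omega)
      obtain ⟨S, hS, S', hS', hd, hne, hg, hw⟩ := exists_block T g m w W hW0
        (fun i u hu => hW i u (hTV hu)) n N (by
          have := Finset.card_le_card hTV
          omega) F (fun S hS => hF S (hS.trans hTV)) hN (by rw [hT]; exact ht)
      set B0 := S ∪ S' with hB0
      have hB0T : B0 ⊆ T := Finset.union_subset hS hS'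
      have hB0V : B0 ⊆ V := hB0T.trans hTV
      have hss : V \ B0 ⊂ V := Finset.sdiff_ssubset hB0V hne
      obtain ⟨ν, β, e, h1, h2, h3, h4, h5, h6⟩ := ih (V \ B0) hss
        ((Finset.card_le_card hss.subset).trans hV) (fun i u hu => hW i u (hss.subset hu))
        (fun S hS => hF S (hS.trans hss.subset))
      have hcard : (V \ B0).card + 1 ≤ V.card := Finset.card_lt_card hss
      let β' : ι → Option (Fin (ν + 1)) := fun u =>
        if u ∈ B0 then some (Fin.last ν) else (β u).map Fin.castSucc
      let e' : ι → Bool := fun u => if u ∈ B0 then decide (u ∈ S) else e u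
      have hβ1 : ∀ u, u ∈ B0 → β' u = some (Fin.last ν) := fun u hu => if_pos hu
      have hβ2 : ∀ u, u ∉ B0 → β' u = (β u).map Fin.castSucc := fun u hu => if_neg hu
      have hnone : ∀ u, β' u = none ↔ u ∉ B0 ∧ β u = none := by
        intro u
        by_cases h : u ∈ B0
        · rw [hβ1 u h]
          simp [h]
        · rw [hβ2 u h]
          simp [h]
      have hlast : ∀ u, β' u = some (Fin.last ν) ↔ u ∈ B0 := by
        intro u
        by_cases h : u ∈ B0
        · rw [hβ1 u h]
          simp [h]
        · rw [hβ2 u h]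
          rcases β u with _ | c
          · simp [h]
          · simp [h, Fin.castSucc_ne_last]
      have hcast : ∀ u (c : Fin ν), β' u = some (Fin.castSucc c) ↔ u ∉ B0 ∧ β u = some c := by
        intro u c
        by_cases h : u ∈ B0
        · rw [hβ1 u h]
          simp [h, (Fin.castSucc_ne_last c).symm]
        · rw [hβ2 u h]
          rcases β u with _ | c'
          · simp [h]
          · simp [h]
      have hfl : V.filter (fun u => β' u = some (Fin.last ν)) = B0 := by
        ext u
        rw [mem_filter, hlast]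
        exact ⟨fun h => h.2, fun h => ⟨hB0V h, h⟩⟩
      have hfc : ∀ c : Fin ν, V.filter (fun u => β' u = some (Fin.castSucc c)) =
          (V \ B0).filter fun u => β u = some c := by
        intro c
        ext u
        rw [mem_filter, hcast, mem_filter, mem_sdiff]
        tauto
      have hfn : V.filter (fun u => β' u = none) = (V \ B0).filter fun u => β u = none := by
        ext u
        rw [mem_filter, hnone, mem_filter, mem_sdiff]
        tauto
      have he1 : ∀ u ∈ S, e' u = true := by
        intro u hu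
        show (if u ∈ B0 then decide (u ∈ S) else e u) = true
        rw [if_pos (mem_union_left _ hu)]
        exact decide_eq_true hu
      have he2 : ∀ u ∈ S', e' u = false := by
        intro u hu
        show (if u ∈ B0 then decide (u ∈ S) else e u) = false
        rw [if_pos (mem_union_right _ hu)]
        exact decide_eq_false fun h => Finset.disjoint_left.1 hd h hu
      have he3 : ∀ c : Fin ν, ∀ u ∈ (V \ B0).filter (fun u => β u = some c), e' u = e u := by
        intro c u hu
        exact if_neg (mem_sdiff.1 (mem_filter.1 hu).1).2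
      refine ⟨ν + 1, β', e', by omega, ?_, ?_, ?_, ?_, ?_⟩
      · intro u hu
        by_cases h : u ∈ B0
        · exact hB0V h
        · rw [hβ2 u h] at hu
          refine (mem_sdiff.1 (h2 u fun h' => hu ?_)).1
          rw [h']
          rfl
      · rw [hfn]
        exact h3
      · intro B
        rcases Fin.eq_castSucc_or_eq_last B with ⟨c, rfl⟩ | rfl
        · rw [hfc]
          exact h4 c
        · rw [hfl]
          exact (Finset.card_le_card hB0T).trans hT.le
      · intro B
        rcases Fin.eq_castSucc_or_eq_last B with ⟨c, rfl⟩ | rfl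
        · rw [hfc, sgn_congr _ e e' (he3 c)]
          exact h5 c
        · rw [hfl, hB0, sgn_sum S S' hd e' he1 he2, hg, sub_self]
      · intro B i
        rcases Fin.eq_castSucc_or_eq_last B with ⟨c, rfl⟩ | rfl
        · rw [hfc, sgn_congr _ e e' (he3 c)]
          exact h6 c i
        · rw [hfl, hB0, sgn_sum S S' hd e' he1 he2]
          exact hw i

end Pool.Agent.H40.AE
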