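import Mathlib

/-!
# Learners of parity functions: definitions

Examples, parity functions, mistakes; decision lists and threshold gates.
-/

set_option autoImplicit false

namespace Pool.Agent.H40.AE

open Finset MvPolynomial

/-- The examples: bit vectors of length `n`. -/
abbrev Ex (n : ℕ) : Type := Fin n → ZMod 2

/-- The parity function of the set `S`. -/
def chi {n : ℕ} (S : Finset (Fin n)) (x : Ex n) : ZMod 2 := ∑ i ∈ S, x i

/-- The number of mistakes in the remaining trials `xs` of the learner that predicts the label
`P h x` of the example `x` after the labelled examples `h`, when the target is `f`. -/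
def mistakes {n : ℕ} (P : List (Ex n × ZMod 2) → Ex n → ZMod 2) (f : Ex n → ZMod 2) :
    List (Ex n × ZMod 2) → List (Ex n) → ℕ
  | _, [] => 0
  | h, x :: xs => (if P h x = f x then 0 else 1) + mistakes P f (h ++ [(x, f x)]) xs

/-- A rule of a decision list. The test is passed by `x` if `x i = 1` for `i` in `pos`, `x i = 0`
for `i` in `neg` and all the polynomials in `test` vanish at `x`; then the output is `out`. -/
structure Rule (n : ℕ) where
  pos : Finset (Fin n)
  neg : Finset (Fin n)
  test : List (MvPolynomial (Fin n) (ZMod 2))
  out : ZMod 2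

/-- The example satisfies the literals of the rule. -/
def Lits {n : ℕ} (r : Rule n) (x : Ex n) : Prop := (∀ i ∈ r.pos, x i = 1) ∧ ∀ i ∈ r.neg, x i = 0

/-- The polynomials in `T` vanish at `x`. -/
def Passes {n : ℕ} (T : List (MvPolynomial (Fin n) (ZMod 2))) (x : Ex n) : Prop :=
  ∀ p ∈ T, eval x p = 0

/-- The sum of the total degrees of the polynomials in `T`. -/
noncomputable def tdeg {n : ℕ} (T : List (MvPolynomial (Fin n) (ZMod 2))) : ℕ :=
  (T.map totalDegree).sum

/-- The rule has literals. -/
def Wide {n : ℕ} (r : Rule n) : Prop := (r.pos ∪ r.neg).Nonempty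

instance {n : ℕ} : DecidablePred (Wide (n := n)) := fun r => by
  unfold Wide
  infer_instance

open scoped Classical in
/-- The output of a decision list: the output of the first rule whose test is passed by `x`, and
`d` if there is no such rule. -/
noncomputable def run {n : ℕ} (x : Ex n) (d : ZMod 2) : List (Rule n) → ZMod 2
  | [] => d
  | r :: rs => if Lits r x ∧ Passes r.test x then r.out else run x d rs

/-- `len` decision lists with default outputs. -/
structure Lists (n : ℕ) where
  len : ℕ
  rules : Fin len → List (Rule n)
  default : Fin len → ZMod 2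

/-- The values of the decision lists at `x`. -/
noncomputable def Lists.vals {n : ℕ} (D : Lists n) (x : Ex n) : Fin D.len → ZMod 2 :=
  fun l => run x (D.default l) (D.rules l)

/-- There are at most `L` lists with together at most `s` rules that have literals, and there are
bounds `w l` for the degrees `tdeg` of all the tests of the list `l` such that the sum of the `w l`
is at most `k`. -/
def Lists.Bound {n : ℕ} (D : Lists n) (L s k : ℕ) : Prop :=
  D.len ≤ L ∧ ∑ l, ((D.rules l).filter fun r => Wide r).length ≤ s ∧
    ∃ w : Fin D.len → ℕ, (∀ l, ∀ r ∈ D.rules l, tdeg r.test ≤ w l) ∧ ∑ l, w l ≤ k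

/-- The value at `x` of the linear form with the weights `w`: the sum of the weights of the bits
of `x` that are `1`. -/
noncomputable def lin {n : ℕ} (w : Fin n → ℝ) (x : Ex n) : ℝ := ∑ i, if x i = 1 then w i else 0

/-- The cost of the literals: `0` if `s = 0`, and about `2 (n L log s) ^ (1/2)` otherwise. -/
noncomputable def wid (n L s : ℕ) : ℕ :=
  if s = 0 then 0 else ⌊2 * Real.sqrt (n * L * Real.log s)⌋₊ + 1

/-- About `(4 m log (4 m + 1)) ^ (1/2) + 2 e + 1`. -/
noncomputable def gap (m e : ℕ) : ℕ := ⌊Real.sqrt (4 * m * Real.log (4 * m + 1))⌋₊ + 2 * e + 1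

end Pool.Agent.H40.AE
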