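import Pool.Agent.H40.AE.Step

/-!
# Many mistakes

From one mistake that keeps almost all candidates to many mistakes.
-/

set_option autoImplicit false

namespace Pool.Agent.H40.AE

open Finset

/-- There is an example on which the prediction `v` is wrong for all but at most `c` of the
candidate pairs in `V`. -/
def Fools {n M : ℕ} (a b : Fin M → Fin n) (c : ℕ) (v : Ex n → ZMod 2) (V : Finset (Fin M)) :
    Prop :=
  ∃ (x : Ex n) (U : Finset (Fin M)) (l : ZMod 2), U ⊆ V ∧ V.card ≤ U.card + c ∧
    (∀ i, (∀ u, a u ≠ i) → (∀ u, b u ≠ i) → x i = 0) ∧ v x ≠ l ∧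
      ∀ u ∈ U, x (a u) + x (b u) = l

theorem game {n M : ℕ} (a b : Fin M → Fin n) (hab : ∀ u v, a u ≠ b v) (R : Finset (Fin n))
    (haR : ∀ u, a u ∉ R) (hbR : ∀ u, b u ∉ R) (P : List (Ex n × ZMod 2) → Ex n → ZMod 2) (c : ℕ)
    (hP : ∀ h (V : Finset (Fin M)), c ≤ V.card → Fools a b c (P h) V) :
    ∀ (j : ℕ) (V : Finset (Fin M)) (h : List (Ex n × ZMod 2)), j * c < V.card →
        ∃ u ∈ V, ∃ xs : List (Ex n),
          j ≤ mistakes P (chi (insert (a u) (insert (b u) R))) h xs := by
  intro j
  induction j with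
  | zero =>
    intro V h hV
    obtain ⟨u, hu⟩ := Finset.card_pos.1 (by omega : 0 < V.card)
    exact ⟨u, hu, [], Nat.zero_le _⟩
  | succ j ih =>
    intro V h hV
    rw [add_mul, one_mul] at hV
    obtain ⟨x, U, l, hUV, hUc, hx0, hl, hlab⟩ := hP h V (by omega)
    obtain ⟨u, hu, xs, hxs⟩ := ih U (h ++ [(x, l)]) (by omega)
    refine ⟨u, hUV hu, x :: xs, ?_⟩
    have hchi : chi (insert (a u) (insert (b u) R)) x = l := by
      unfold chi
      rw [Finset.sum_insert, Finset.sum_insert (hbR u), Finset.sum_eq_zero (s := R), add_zero]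
      · exact hlab u hu
      · intro i hi
        refine hx0 i (fun v hv => ?_) (fun v hv => ?_)
        · exact haR v (hv ▸ hi)
        · exact hbR v (hv ▸ hi)
      · rw [mem_insert, not_or]
        exact ⟨hab u u, haR u⟩
    unfold mistakes
    rw [hchi, if_neg hl]
    omega

theorem mistakes_of_fools (n r j c : ℕ) (P : List (Ex n × ZMod 2) → Ex n → ZMod 2)
    (hP : ∀ (M : ℕ) (a b : Fin M → Fin n), Function.Injective a → Function.Injective b →
      (∀ u v, a u ≠ b v) → ∀ h (V : Finset (Fin M)), c ≤ V.card → Fools a b c (P h) V)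
    (hr : 2 ≤ r) (hn : 2 * j * c + r ≤ n) :
    ∃ S : Finset (Fin n), S.card = r ∧ ∃ xs : List (Ex n), j ≤ mistakes P (chi S) [] xs := by
  classical
  set M := j * c + 1 with hM
  have h2 : 2 * j * c = 2 * (j * c) := by ring
  let a : Fin M → Fin n := fun u => ⟨2 * u, by have := u.2; omega⟩
  let b : Fin M → Fin n := fun u => ⟨2 * u + 1, by have := u.2; omega⟩
  have ha : Function.Injective a := by
    intro u v h
    have h1 : 2 * (u : ℕ) = 2 * v := congrArg Fin.val h
    exact Fin.ext (by omega)
  have hb : Function.Injective b := by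
    intro u v h
    have h1 : 2 * (u : ℕ) + 1 = 2 * v + 1 := congrArg Fin.val h
    exact Fin.ext (by omega)
  have hab : ∀ u v, a u ≠ b v := by
    intro u v h
    have h1 : 2 * (u : ℕ) = 2 * v + 1 := congrArg Fin.val h
    omega
  have hcard : (univ.image a ∪ univ.image b).card ≤ 2 * M := by
    refine (Finset.card_union_le _ _).trans ?_
    have h3 : (univ.image a).card ≤ M := by
      simpa using (Finset.card_image_le : (univ.image a).card ≤ (univ : Finset (Fin M)).card)
    have h4 : (univ.image b).card ≤ M := by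
      simpa using (Finset.card_image_le : (univ.image b).card ≤ (univ : Finset (Fin M)).card)
    omega
  obtain ⟨R, hRs, hR⟩ := Finset.exists_subset_card_eq
    (s := (univ : Finset (Fin n)) \ (univ.image a ∪ univ.image b)) (n := r - 2) (by
      rw [Finset.card_sdiff_of_subset (subset_univ _), Finset.card_univ, Fintype.card_fin]
      omega)
  have haR : ∀ u, a u ∉ R := fun u hu =>
    (mem_sdiff.1 (hRs hu)).2 (mem_union_left _ (mem_image_of_mem a (mem_univ u)))
  have hbR : ∀ u, b u ∉ R := fun u hu =>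
    (mem_sdiff.1 (hRs hu)).2 (mem_union_right _ (mem_image_of_mem b (mem_univ u)))
  obtain ⟨u, -, xs, hxs⟩ := game a b hab R haR hbR P c (hP M a b ha hb hab) j univ [] (by
    rw [Finset.card_univ, Fintype.card_fin]
    omega)
  refine ⟨insert (a u) (insert (b u) R), ?_, xs, hxs⟩
  rw [Finset.card_insert_of_notMem, Finset.card_insert_of_notMem (hbR u), hR]
  · omega
  · rw [mem_insert, not_or]
    exact ⟨hab u u, haR u⟩

end Pool.Agent.H40.AE
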