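import Pool.Agent.H40.AE.Wid
import Pool.Agent.H40.AE.Comb

/-!
# Threshold gates and decision lists: one mistake

An example on which a hypothesis is wrong for most of the candidates.
-/

set_option autoImplicit false

namespace Pool.Agent.H40.AE

open Finset MvPolynomial

section play

variable {n m K M : ℕ}

/-- The example with the set `X` of ones. -/
def ind (X : Finset (Fin n)) : Ex n := fun i => if i ∈ X then 1 else 0

theorem lin_ind (w : Fin n → ℝ) (X : Finset (Fin n)) : lin w (ind X) = ∑ i ∈ X, w i := by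
  unfold lin ind
  have : ∀ i : Fin n, (if (if i ∈ X then (1 : ZMod 2) else 0) = 1 then w i else 0) =
      if i ∈ X then w i else 0 := by
    intro i
    by_cases h : i ∈ X
    · simp [h]
    · simp [h]
  simp only [this]
  rw [Finset.sum_ite_mem, Finset.univ_inter]

/-- The sign, with `sg 0 = 1`. -/
noncomputable def sg (r : ℝ) : ℝ := if 0 ≤ r then 1 else -1

theorem mul_sg (r : ℝ) : r * sg r = |r| := by
  unfold sg
  split_ifs with h
  · rw [abs_of_nonneg h, mul_one]
  · push Not at h
    rw [abs_of_neg h]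
    ring

theorem sg_or (r : ℝ) : sg r = 1 ∨ sg r = -1 := by
  unfold sg
  split_ifs
  · exact Or.inl rfl
  · exact Or.inr rfl

/-- The ones of the example with the signs `y`, `z` on the pairs in `V`. -/
noncomputable def ones (a b : Fin M → Fin n) (V : Finset (Fin M)) (y z : Fin M → ℝ) :
    Finset (Fin n) := by
  classical
  exact (V.filter fun u => y u = 1).image a ∪ (V.filter fun u => z u = 1).image b

theorem mem_ones_a (a b : Fin M → Fin n) (ha : Function.Injective a) (hab : ∀ u v, a u ≠ b v)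
    (V : Finset (Fin M)) (y z : Fin M → ℝ) (u : Fin M) :
    a u ∈ ones a b V y z ↔ u ∈ V ∧ y u = 1 := by
  classical
  unfold ones
  rw [mem_union, mem_image, mem_image]
  constructor
  · rintro (⟨v, hv, e⟩ | ⟨v, -, e⟩)
    · rw [← ha e]
      exact mem_filter.1 hv
    · exact absurd e.symm (hab u v)
  · intro h
    exact Or.inl ⟨u, mem_filter.2 h, rfl⟩

theorem mem_ones_b (a b : Fin M → Fin n) (hb : Function.Injective b) (hab : ∀ u v, a u ≠ b v)
    (V : Finset (Fin M)) (y z : Fin M → ℝ) (u : Fin M) :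
    b u ∈ ones a b V y z ↔ u ∈ V ∧ z u = 1 := by
  classical
  unfold ones
  rw [mem_union, mem_image, mem_image]
  constructor
  · rintro (⟨v, -, e⟩ | ⟨v, hv, e⟩)
    · exact absurd e (hab v u)
    · rw [← hb e]
      exact mem_filter.1 hv
  · intro h
    exact Or.inr ⟨u, mem_filter.2 h, rfl⟩

theorem lin_ones (a b : Fin M → Fin n) (ha : Function.Injective a) (hb : Function.Injective b)
    (hab : ∀ u v, a u ≠ b v) (V : Finset (Fin M)) (y z : Fin M → ℝ)
    (hy : ∀ u ∈ V, y u = 1 ∨ y u = -1) (hz : ∀ u ∈ V, z u = 1 ∨ z u = -1) (w : Fin n → ℝ) :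
    2 * lin w (ind (ones a b V y z)) =
      ∑ u ∈ V, (w (a u) + w (b u)) + ∑ u ∈ V, (w (a u) * y u + w (b u) * z u) := by
  classical
  rw [lin_ind]
  unfold ones
  rw [Finset.sum_union]
  · rw [Finset.sum_image fun _ _ _ _ h => ha h, Finset.sum_image fun _ _ _ _ h => hb h,
      Finset.sum_filter, Finset.sum_filter, ← Finset.sum_add_distrib, ← Finset.sum_add_distrib,
      Finset.mul_sum]
    refine Finset.sum_congr rfl fun u hu => ?_
    rcases hy u hu with h1 | h1 <;> rcases hz u hu with h2 | h2 <;> rw [h1, h2] <;> norm_num <;>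
      ring
  · rw [Finset.disjoint_left]
    intro i hi hi'
    obtain ⟨u, -, rfl⟩ := mem_image.1 hi
    obtain ⟨v, -, e⟩ := mem_image.1 hi'
    exact hab u v e.symm

/-- changing few bits changes a linear form little -/
theorem lin_near (w : Fin n → ℝ) (W : ℝ) (B : Finset (Fin n)) (hW : ∀ i ∈ B, |w i| ≤ W)
    (x c : Ex n) (hx : ∀ i, i ∉ B → x i = c i) :
    |lin w x - lin w c| ≤ ((B.filter fun i => x i ≠ c i).card : ℝ) * W := by
  unfold lin
  rw [← Finset.sum_sub_distrib]
  have h1 : ∀ i, (if x i = 1 then w i else 0) - (if c i = 1 then w i else 0) =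
      if i ∈ B.filter fun i => x i ≠ c i then
        ((if x i = 1 then w i else 0) - (if c i = 1 then w i else 0)) else 0 := by
    intro i
    by_cases h : i ∈ B.filter fun i => x i ≠ c i
    · rw [if_pos h]
    · rw [if_neg h]
      have h2 : x i = c i := by
        by_cases hB : i ∈ B
        · rw [mem_filter, not_and, not_not] at h
          exact h hB
        · exact hx i hB
      rw [h2, sub_self]
  rw [Finset.sum_congr rfl fun i _ => h1 i, Finset.sum_ite_mem, Finset.univ_inter]
  refine (Finset.abs_sum_le_sum_abs _ _).trans ?_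
  have h3 : ∀ i ∈ B.filter fun i => x i ≠ c i,
      |(if x i = 1 then w i else 0) - (if c i = 1 then w i else 0)| ≤ W := by
    intro i hi
    have h4 := hW i (mem_filter.1 hi).1
    have h5 : 0 ≤ W := (abs_nonneg _).trans h4
    split_ifs
    · rw [sub_self, abs_zero]
      exact h5
    · rw [sub_zero]
      exact h4
    · rw [zero_sub, abs_neg]
      exact h4
    · rw [sub_self, abs_zero]
      exact h5
  have h6 := Finset.sum_le_card_nsmul _ _ W h3
  rwa [nsmul_eq_mul] at h6

/-- One mistake: an example on which the hypothesis is wrong for all pairs in `U`. -/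
theorem step (a b : Fin M → Fin n) (ha : Function.Injective a) (hb : Function.Injective b)
    (hab : ∀ u v, a u ≠ b v) (weight : Fin m → Fin n → ℝ) (form : Fin K → Fin m) (thr : Fin K → ℝ)
    (D : Lists n) (L s k : ℕ) (hD : D.Bound L s k)
    (f : (Fin K → Bool) → (Fin D.len → ZMod 2) → ZMod 2) (v : Ex n → ZMod 2)
    (hv : ∀ x, v x = f (fun q => decide (thr q ≤ lin (weight (form q)) x)) (D.vals x)) (ρ : ℝ)
    (hρ : ∀ (U : Finset (Fin M)) (c : Fin (m + m) → Fin M → ℝ) (W : Fin (m + m) → ℝ),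
      (∀ i, ∀ u ∈ U, |c i u| ≤ W i) → (∀ i, 0 ≤ W i) →
        ∃ y : Fin M → ℝ, (∀ u, y u = 1 ∨ y u = -1) ∧ ∀ i, |∑ u ∈ U, c i u * y u| ≤ ρ * W i)
    (N : ℕ) (hN : ρ + 2 * (wid n L s + k : ℕ) < N) (V : Finset (Fin M)) (hV : m * K * N ≤ V.card) :
    ∃ (x : Ex n) (U : Finset (Fin M)) (l : ZMod 2), U ⊆ V ∧ V.card ≤ U.card + (m * K * N + (wid n L s + k)) ∧
      (∀ i, (∀ u, a u ≠ i) → (∀ u, b u ≠ i) → x i = 0) ∧ v x ≠ l ∧
      ∀ u ∈ U, x (a u) + x (b u) = l := by
  classical
  set e : ℕ := wid n L s + k with he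
  let α : Fin m → Fin M → ℝ := fun i u => weight i (a u)
  let β : Fin m → Fin M → ℝ := fun i u => weight i (b u)
  let ω : Fin m × Fin K → Fin M → ℝ := fun p u => |α p.1 u| + |β p.1 u|
  obtain ⟨G, hG1, hG2, hG3⟩ := exists_groups V ω N (univ : Finset (Fin m × Fin K)) (by
    rw [Finset.card_univ, Fintype.card_prod, Fintype.card_fin, Fintype.card_fin]
    exact hV)
  set B := (univ : Finset (Fin m × Fin K)).biUnion G with hB
  have hBV : B ⊆ V := by
    intro u hu
    obtain ⟨p, hp, hu⟩ := mem_biUnion.1 hu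
    exact (hG1 p hp).1 hu
  have hBc : B.card ≤ m * K * N := by
    calc B.card ≤ (univ : Finset (Fin m × Fin K)).card * N :=
          Finset.card_biUnion_le_card_mul _ _ _ fun k hk => (hG1 k hk).2.le
      _ = m * K * N := by
          rw [Finset.card_univ, Fintype.card_prod, Fintype.card_fin, Fintype.card_fin]
  set U := V \ B with hU
  have hUB : ∀ u ∈ U, ∀ p, u ∉ G p := fun u hu p hp =>
    (mem_sdiff.1 hu).2 (mem_biUnion.2 ⟨p, mem_univ _, hp⟩)
  -- the maximal weights outside the groups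
  have hWex : ∀ i : Fin m, ∃ W : ℝ, 0 ≤ W ∧ (∀ v ∈ U, |α i v| + |β i v| ≤ W) ∧
      ∀ k : Fin K, ∀ u ∈ G (i, k), W ≤ |α i u| + |β i u| := by
    intro i
    rcases U.eq_empty_or_nonempty with h | h
    · refine ⟨0, le_refl _, ?_, fun k u _ => by positivity⟩
      rw [h]
      simp
    · obtain ⟨v, hv, hmax⟩ := Finset.exists_max_image U (fun v => |α i v| + |β i v|) h
      refine ⟨|α i v| + |β i v|, by positivity, hmax, fun k u hu => ?_⟩
      exact hG3 (i, k) (mem_univ _) u hu v (mem_sdiff.1 hv).1 (mem_sdiff.1 hv).2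
  choose W hW0 hWU hWG using hWex
  -- the signs on the groups
  let σ : (Fin m → Fin (K + 1)) → Fin m × Fin K → ℝ := fun t p =>
    if (p.2 : ℕ) < (t p.1 : ℕ) then 1 else -1
  have hσ : ∀ t p, σ t p = 1 ∨ σ t p = -1 := by
    intro t p
    by_cases h : (p.2 : ℕ) < (t p.1 : ℕ)
    · exact Or.inl (if_pos h)
    · exact Or.inr (if_neg h)
  let Z : (Fin m → Fin M → ℝ) → (Fin m → Fin (K + 1)) → (Fin M → ℝ) → Fin M → ℝ :=
    fun γ t y1 u => if h : ∃ p, u ∈ G p then σ t h.choose * sg (γ h.choose.1 u) else y1 u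
  have hZ1 : ∀ γ t y1 p u, u ∈ G p → Z γ t y1 u = σ t p * sg (γ p.1 u) := by
    intro γ t y1 p u hu
    have h : ∃ p, u ∈ G p := ⟨p, hu⟩
    have e : h.choose = p := by
      by_contra hne
      exact Finset.disjoint_left.1 (hG2 _ (mem_univ _) _ (mem_univ _) hne) h.choose_spec hu
    show (if h : ∃ p, u ∈ G p then σ t h.choose * sg (γ h.choose.1 u) else y1 u) = _
    rw [dif_pos h, e]
  have hZ2 : ∀ γ t y1 u, u ∈ U → Z γ t y1 u = y1 u := by
    intro γ t y1 u hu
    show (if h : ∃ p, u ∈ G p then σ t h.choose * sg (γ h.choose.1 u) else y1 u) = _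
    rw [dif_neg]
    rintro ⟨p, hp⟩
    exact hUB u hu p hp
  have hZpm : ∀ γ t (y1 : Fin M → ℝ), (∀ u, y1 u = 1 ∨ y1 u = -1) →
      ∀ u ∈ V, Z γ t y1 u = 1 ∨ Z γ t y1 u = -1 := by
    intro γ t y1 hy1 u hu
    by_cases h : u ∈ B
    · obtain ⟨p, -, hp⟩ := mem_biUnion.1 h
      rw [hZ1 γ t y1 p u hp]
      rcases hσ t p with h1 | h1 <;> rcases sg_or (γ p.1 u) with h2 | h2 <;> rw [h1, h2] <;>
        norm_num
    · rw [hZ2 γ t y1 u (mem_sdiff.2 ⟨hu, h⟩)]
      exact hy1 u
  -- the values of the forms on the groups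
  let C : Fin m → (Fin m → Fin (K + 1)) → ℝ := fun j t =>
    ∑ p : Fin m × Fin K, ∑ u ∈ G p, σ t p * (α j u * sg (α p.1 u) + β j u * sg (β p.1 u))
  have hC : ∀ (j : Fin m) t (y1 z1 : Fin M → ℝ),
      ∑ u ∈ V, (α j u * Z α t y1 u + β j u * Z β t z1 u) =
        C j t + ∑ u ∈ U, (α j u * y1 u + β j u * z1 u) := by
    intro j t y1 z1
    rw [← Finset.sum_sdiff hBV, add_comm]
    congr 1
    · rw [hB, Finset.sum_biUnion]
      · refine Finset.sum_congr rfl fun p _ => Finset.sum_congr rfl fun u hu => ?_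
        rw [hZ1 α t y1 p u hu, hZ1 β t z1 p u hu]
        ring
      · intro p _ q _ hpq
        exact hG2 p (mem_univ _) q (mem_univ _) hpq
    · refine Finset.sum_congr rfl fun u hu => ?_
      rw [hZ2 α t y1 u hu, hZ2 β t z1 u hu]
  -- raising a coordinate of `t`
  have hline : ∀ (i : Fin m) (t t' : Fin m → Fin (K + 1)), (∀ l, l ≠ i → t l = t' l) →
      (t i : ℕ) < (t' i : ℕ) → 2 * (N : ℝ) * W i ≤ C i t' - C i t := by
    intro i t t' hoff hlt
    have hσle : ∀ p : Fin m × Fin K, σ t p ≤ σ t' p := by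
      intro p
      by_cases h : p.1 = i
      · by_cases h1 : (p.2 : ℕ) < (t p.1 : ℕ)
        · have h2 : (p.2 : ℕ) < (t' p.1 : ℕ) := by
            rw [h] at h1 ⊢
            omega
          show (if _ then (1 : ℝ) else -1) ≤ if _ then (1 : ℝ) else -1
          rw [if_pos h1, if_pos h2]
        · show (if _ then (1 : ℝ) else -1) ≤ if _ then (1 : ℝ) else -1
          rw [if_neg h1]
          split_ifs <;> norm_num
      · show (if _ then (1 : ℝ) else -1) ≤ if _ then (1 : ℝ) else -1
        rw [hoff p.1 h]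
    have hσeq : ∀ p : Fin m × Fin K, p.1 ≠ i → σ t p = σ t' p := by
      intro p h
      show (if _ then (1 : ℝ) else -1) = if _ then (1 : ℝ) else -1
      rw [hoff p.1 h]
    have hdiff : C i t' - C i t = ∑ p : Fin m × Fin K, (σ t' p - σ t p) *
        ∑ u ∈ G p, (α i u * sg (α p.1 u) + β i u * sg (β p.1 u)) := by
      show (∑ p : Fin m × Fin K, ∑ u ∈ G p, σ t' p * _) - (∑ p : Fin m × Fin K,
        ∑ u ∈ G p, σ t p * _) = _
      rw [← Finset.sum_sub_distrib]
      refine Finset.sum_congr rfl fun p _ => ?_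
      rw [← Finset.mul_sum, ← Finset.mul_sum]
      ring
    have hnn : ∀ p : Fin m × Fin K, 0 ≤ (σ t' p - σ t p) *
        ∑ u ∈ G p, (α i u * sg (α p.1 u) + β i u * sg (β p.1 u)) := by
      intro p
      by_cases h : p.1 = i
      · refine mul_nonneg (by linarith [hσle p]) (Finset.sum_nonneg fun u _ => ?_)
        rw [h, mul_sg, mul_sg]
        positivity
      · rw [hσeq p h, sub_self, zero_mul]
    have hk : (t i : ℕ) < K := lt_of_lt_of_le hlt (Nat.lt_succ_iff.1 (t' i).2)
    let p0 : Fin m × Fin K := (i, ⟨t i, hk⟩)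
    have hp0 : 2 * (N : ℝ) * W i ≤ (σ t' p0 - σ t p0) *
        ∑ u ∈ G p0, (α i u * sg (α p0.1 u) + β i u * sg (β p0.1 u)) := by
      have e1 : σ t' p0 = 1 := if_pos hlt
      have e2 : σ t p0 = -1 := if_neg (lt_irrefl _)
      rw [e1, e2]
      have h1 : (N : ℝ) * W i ≤
          ∑ u ∈ G p0, (α i u * sg (α p0.1 u) + β i u * sg (β p0.1 u)) := by
        have h2 := Finset.card_nsmul_le_sum (G p0)
          (fun u => α i u * sg (α p0.1 u) + β i u * sg (β p0.1 u)) (W i) (fun u hu => by
            show W i ≤ α i u * sg (α i u) + β i u * sg (β i u)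
            rw [mul_sg, mul_sg]
            exact hWG i _ u hu)
        rw [(hG1 p0 (mem_univ _)).2, nsmul_eq_mul] at h2
        exact h2
      linarith
    rw [hdiff]
    exact hp0.trans (Finset.single_le_sum (f := fun p : Fin m × Fin K => (σ t' p - σ t p) *
        ∑ u ∈ G p, (α i u * sg (α p.1 u) + β i u * sg (β p.1 u)))
      (fun p _ => hnn p) (mem_univ p0))
  -- a good point
  let θ : Fin K → ℝ := fun q => 2 * thr q - ∑ u ∈ V, (α (form q) u + β (form q) u)
  obtain ⟨t, ht⟩ := exists_good m K form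
    (fun q t => 0 < W (form q) ∧ |C (form q) t - θ q| ≤ (ρ + 2 * e) * W (form q)) (by
      rintro q t t' hoff ⟨hW, h1⟩ ⟨-, h2⟩
      rw [abs_le] at h1 h2
      have h4 : (ρ + 2 * e) * W (form q) < (N : ℝ) * W (form q) :=
        mul_lt_mul_of_pos_right hN hW
      funext l
      by_cases hl : l = form q
      · rw [hl]
        apply Fin.ext
        rcases lt_trichotomy (t (form q) : ℕ) (t' (form q) : ℕ) with h | h | h
        · have h3 := hline _ t t' hoff h
          linarith
        · exact h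
        · have h3 := hline _ t' t (fun l hl => (hoff l hl).symm) h
          linarith
      · exact hoff l hl)
  -- balancing
  obtain ⟨y, hy, hyb⟩ := hρ U
    (fun i u => Sum.elim (fun i => α i u + β i u) (fun i => α i u - β i u) (finSumFinEquiv.symm i))
    (fun i => Sum.elim W W (finSumFinEquiv.symm i)) (by
      intro i u hu
      rcases finSumFinEquiv.symm i with j | j
      · exact (abs_add_le _ _).trans (hWU j u hu)
      · exact (abs_sub _ _).trans (hWU j u hu)) (by
      intro i
      rcases finSumFinEquiv.symm i with j | j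
      · exact hW0 j
      · exact hW0 j)
  have hyp : ∀ i : Fin m, |∑ u ∈ U, (α i u + β i u) * y u| ≤ ρ * W i := by
    intro i
    have := hyb (finSumFinEquiv (Sum.inl i))
    simpa only [Equiv.symm_apply_apply, Sum.elim_inl] using this
  have hym : ∀ i : Fin m, |∑ u ∈ U, (α i u - β i u) * y u| ≤ ρ * W i := by
    intro i
    have := hyb (finSumFinEquiv (Sum.inr i))
    simpa only [Equiv.symm_apply_apply, Sum.elim_inr] using this
  have hy' : ∀ u, -y u = 1 ∨ -y u = -1 := by
    intro u
    rcases hy u with h | h <;> rw [h] <;> norm_num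
  set P := ind (ones a b V (Z α t y) (Z β t y)) with hP
  set P' := ind (ones a b V (Z α t y) (Z β t fun u => -y u)) with hP'
  have hlinP : ∀ i : Fin m, |2 * lin (weight i) P - ∑ u ∈ V, (α i u + β i u) - C i t| ≤
      ρ * W i := by
    intro i
    have e1 := lin_ones a b ha hb hab V (Z α t y) (Z β t y) (hZpm α t y hy)
      (hZpm β t y hy) (weight i)
    have f1 := hC i t y y
    have k1 : ∑ u ∈ U, (α i u * y u + β i u * y u) = ∑ u ∈ U, (α i u + β i u) * y u :=
      Finset.sum_congr rfl fun u _ => by ring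
    rw [k1] at f1
    have e2 : 2 * lin (weight i) P = ∑ u ∈ V, (α i u + β i u) +
        (C i t + ∑ u ∈ U, (α i u + β i u) * y u) := by
      rw [← f1]
      exact e1
    rw [e2]
    have : ∑ u ∈ V, (α i u + β i u) + (C i t + ∑ u ∈ U, (α i u + β i u) * y u) -
        ∑ u ∈ V, (α i u + β i u) - C i t = ∑ u ∈ U, (α i u + β i u) * y u := by ring
    rw [this]
    exact hyp i
  have hlinP' : ∀ i : Fin m, |2 * lin (weight i) P' - ∑ u ∈ V, (α i u + β i u) - C i t| ≤
      ρ * W i := by
    intro i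
    have e1 := lin_ones a b ha hb hab V (Z α t y) (Z β t fun u => -y u) (hZpm α t y hy)
      (hZpm β t _ hy') (weight i)
    have f1 := hC i t y fun u => -y u
    have k1 : ∑ u ∈ U, (α i u * y u + β i u * -y u) = ∑ u ∈ U, (α i u - β i u) * y u :=
      Finset.sum_congr rfl fun u _ => by ring
    rw [k1] at f1
    have e2 : 2 * lin (weight i) P' = ∑ u ∈ V, (α i u + β i u) +
        (C i t + ∑ u ∈ U, (α i u - β i u) * y u) := by
      rw [← f1]
      exact e1
    rw [e2]
    have : ∑ u ∈ V, (α i u + β i u) + (C i t + ∑ u ∈ U, (α i u - β i u) * y u) -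
        ∑ u ∈ V, (α i u + β i u) - C i t = ∑ u ∈ U, (α i u - β i u) * y u := by ring
    rw [this]
    exact hym i
  have hgate : ∀ x : Ex n,
      (∀ i : Fin m, |2 * lin (weight i) x - ∑ u ∈ V, (α i u + β i u) - C i t| ≤
        (ρ + 2 * e) * W i) →
      ∀ q, (thr q ≤ lin (weight (form q)) x ↔ θ q ≤ C (form q) t) := by
    intro x hx q
    have h1 := abs_le.1 (hx (form q))
    have hθ : θ q = 2 * thr q - ∑ u ∈ V, (α (form q) u + β (form q) u) := rfl
    rcases (hW0 (form q)).lt_or_eq with hWp | hW0'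
    · have hnb := ht q
      rw [not_and, not_le] at hnb
      rcases lt_abs.1 (hnb hWp) with h | h
      · constructor <;> intro _ <;> linarith
      · constructor <;> intro _ <;> linarith
    · rw [← hW0', mul_zero] at h1
      constructor <;> intro _ <;> linarith
  -- the decision lists
  have hPa : ∀ u ∈ U, P (a u) = if y u = 1 then 1 else 0 := by
    intro u hu
    have h1 : a u ∈ ones a b V (Z α t y) (Z β t y) ↔ y u = 1 := by
      rw [mem_ones_a a b ha hab, hZ2 α t y u hu]
      exact ⟨fun h => h.2, fun h => ⟨(mem_sdiff.1 hu).1, h⟩⟩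
    show (if a u ∈ ones a b V (Z α t y) (Z β t y) then (1 : ZMod 2) else 0) = _
    simp only [h1]
  have hPb : ∀ u ∈ U, P (b u) = if y u = 1 then 1 else 0 := by
    intro u hu
    have h1 : b u ∈ ones a b V (Z α t y) (Z β t y) ↔ y u = 1 := by
      rw [mem_ones_b a b hb hab, hZ2 β t y u hu]
      exact ⟨fun h => h.2, fun h => ⟨(mem_sdiff.1 hu).1, h⟩⟩
    show (if b u ∈ ones a b V (Z α t y) (Z β t y) then (1 : ZMod 2) else 0) = _
    simp only [h1]
  have hPa' : ∀ u ∈ U, P' (a u) = if y u = 1 then 1 else 0 := by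
    intro u hu
    have h1 : a u ∈ ones a b V (Z α t y) (Z β t fun u => -y u) ↔ y u = 1 := by
      rw [mem_ones_a a b ha hab, hZ2 α t y u hu]
      exact ⟨fun h => h.2, fun h => ⟨(mem_sdiff.1 hu).1, h⟩⟩
    show (if a u ∈ ones a b V (Z α t y) (Z β t fun u => -y u) then (1 : ZMod 2) else 0) = _
    simp only [h1]
  have hPb' : ∀ u ∈ U, P' (b u) = if y u = 1 then 0 else 1 := by
    intro u hu
    have h1 : b u ∈ ones a b V (Z α t y) (Z β t fun u => -y u) ↔ ¬ y u = 1 := by
      rw [mem_ones_b a b hb hab, hZ2 β t (fun u => -y u) u hu]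
      rcases hy u with h | h
      · rw [h]
        norm_num
      · rw [h]
        norm_num
        exact (mem_sdiff.1 hu).1
    show (if b u ∈ ones a b V (Z α t y) (Z β t fun u => -y u) then (1 : ZMod 2) else 0) = _
    by_cases h2 : y u = 1
    · rw [if_neg (fun h => (h1.1 h) h2), if_pos h2]
    · rw [if_pos (h1.2 h2), if_neg h2]
  have hPP' : ∀ i, i ∉ U.image b → P i = P' i := by
    intro i hi
    rw [hP, hP']
    unfold ind ones
    have : ((V.filter fun u => Z β t y u = 1).image b : Finset (Fin n)) \ U.image b =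
        ((V.filter fun u => Z β t (fun u => -y u) u = 1).image b) \ U.image b := by
      ext c
      simp only [mem_sdiff, mem_image, mem_filter]
      constructor
      · rintro ⟨⟨u, ⟨huV, hu⟩, rfl⟩, hc⟩
        refine ⟨⟨u, ⟨huV, ?_⟩, rfl⟩, hc⟩
        have huU : u ∉ U := fun h => hc ⟨u, h, rfl⟩
        have huB : u ∈ B := by
          by_contra h
          exact huU (mem_sdiff.2 ⟨huV, h⟩)
        obtain ⟨p, -, hp⟩ := mem_biUnion.1 huB
        rw [hZ1 β t (fun u => -y u) p u hp]
        rw [hZ1 β t y p u hp] at hu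
        exact hu
      · rintro ⟨⟨u, ⟨huV, hu⟩, rfl⟩, hc⟩
        refine ⟨⟨u, ⟨huV, ?_⟩, rfl⟩, hc⟩
        have huU : u ∉ U := fun h => hc ⟨u, h, rfl⟩
        have huB : u ∈ B := by
          by_contra h
          exact huU (mem_sdiff.2 ⟨huV, h⟩)
        obtain ⟨p, -, hp⟩ := mem_biUnion.1 huB
        rw [hZ1 β t y p u hp]
        rw [hZ1 β t (fun u => -y u) p u hp] at hu
        exact hu
    have h1 : i ∈ (V.filter fun u => Z β t y u = 1).image b ↔
        i ∈ (V.filter fun u => Z β t (fun u => -y u) u = 1).image b := by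
      have h2 := Finset.ext_iff.1 this i
      simpa only [mem_sdiff, hi, not_false_eq_true, and_true] using h2
    simp only [mem_union, h1]
  have hPop : ∀ i ∈ U.image b, P i ≠ P' i := by
    intro i hi
    obtain ⟨u, hu, rfl⟩ := mem_image.1 hi
    rw [hPb u hu, hPb' u hu]
    split_ifs <;> decide
  obtain ⟨x, x', hx2, hx2', hx3, hx3', hvals⟩ :=
    twins_wid (U.image b) P P' hPop hPP' D L s k hD
  have hWb : ∀ i : Fin m, ∀ c ∈ U.image b, |weight i c| ≤ W i := by
    intro i c hc
    obtain ⟨u, hu, rfl⟩ := mem_image.1 hc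
    have h1 := hWU i u hu
    have h2 : 0 ≤ |α i u| := abs_nonneg _
    show |β i u| ≤ W i
    linarith
  have hclose : ∀ (x c : Ex n), (∀ i, i ∉ U.image b → x i = c i) →
      ((U.image b).filter fun i => x i ≠ c i).card ≤ e →
      (∀ i : Fin m, |2 * lin (weight i) c - ∑ u ∈ V, (α i u + β i u) - C i t| ≤ ρ * W i) →
      ∀ i : Fin m, |2 * lin (weight i) x - ∑ u ∈ V, (α i u + β i u) - C i t| ≤
        (ρ + 2 * e) * W i := by
    intro x c h1 h2 h3 i
    have h4 := lin_near (weight i) (W i) (U.image b) (hWb i) x c h1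
    have h5 : (((U.image b).filter fun i => x i ≠ c i).card : ℝ) * W i ≤ e * W i := by
      apply mul_le_mul_of_nonneg_right _ (hW0 i)
      exact_mod_cast h2
    have h6 := abs_le.1 (h4.trans h5)
    have h7 := abs_le.1 (h3 i)
    rw [abs_le]
    constructor <;> linarith
  have hvv : v x = v x' := by
    rw [hv, hv, hvals]
    congr 1
    funext q
    exact decide_eq_decide.2 ((hgate x (hclose x P hx2 hx3 hlinP) q).trans
      (hgate x' (hclose x' P' hx2' hx3' hlinP') q).symm)
  have hzero : ∀ (x : Ex n), (∀ i, i ∉ U.image b → x i = P i) →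
      ∀ i, (∀ u, a u ≠ i) → (∀ u, b u ≠ i) → x i = 0 := by
    intro x h1 i h2 h3
    have h4 : i ∉ U.image b := by
      intro h
      obtain ⟨u, -, hu⟩ := mem_image.1 h
      exact h3 u hu
    rw [h1 i h4, hP]
    unfold ind
    rw [if_neg]
    unfold ones
    rw [mem_union, not_or, mem_image, mem_image]
    exact ⟨fun ⟨u, _, hu⟩ => h2 u hu, fun ⟨u, _, hu⟩ => h3 u hu⟩
  have hcount : ∀ (x c : Ex n), ((U.image b).filter fun i => x i ≠ c i).card ≤ e →
      V.card ≤ (U.filter fun u => x (b u) = c (b u)).card + (m * K * N + e) := by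
    intro x c h1
    have h2 := Finset.card_sdiff_add_card_eq_card hBV
    rw [← hU] at h2
    have h3 : (U.filter fun u => x (b u) ≠ c (b u)).card ≤
        ((U.image b).filter fun i => x i ≠ c i).card := by
      rw [← Finset.card_image_of_injective _ hb]
      refine Finset.card_le_card ?_
      intro i hi
      obtain ⟨u, hu, rfl⟩ := mem_image.1 hi
      have hu' := mem_filter.1 hu
      exact mem_filter.2 ⟨mem_image_of_mem b hu'.1, hu'.2⟩
    have h4 : (U.filter fun u => x (b u) = c (b u)).card +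
        (U.filter fun u => x (b u) ≠ c (b u)).card = U.card :=
      Finset.card_filter_add_card_filter_not _
    omega
  have hnb : ∀ u, a u ∉ U.image b := by
    intro u h
    obtain ⟨v, -, hv⟩ := mem_image.1 h
    exact hab u v hv.symm
  by_cases h0 : v x = 0
  · refine ⟨x', U.filter fun u => x' (b u) = P' (b u), 1, (filter_subset _ _).trans sdiff_subset,
      hcount x' P' hx3', hzero x' (fun i hi => (hx2' i hi).trans (hPP' i hi).symm), ?_, ?_⟩
    · rw [← hvv, h0]
      exact zero_ne_one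
    · intro u hu
      have hu' := mem_filter.1 hu
      rw [hx2' _ (hnb u), hu'.2, hPa' u hu'.1, hPb' u hu'.1]
      split_ifs <;> decide
  · refine ⟨x, U.filter fun u => x (b u) = P (b u), 0, (filter_subset _ _).trans sdiff_subset,
      hcount x P hx3, hzero x hx2, h0, ?_⟩
    intro u hu
    have hu' := mem_filter.1 hu
    rw [hx2 _ (hnb u), hu'.2, hPa u hu'.1, hPb u hu'.1]
    split_ifs <;> decide

end play

end Pool.Agent.H40.AE
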