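import Pool.Agent.H40.AE.Wid

/-!
# Decision lists with tied variables

Blocks of variables that are flipped together; the decision lists as lists in the block variables.
-/

set_option autoImplicit false

namespace Pool.Agent.H40.AE

open Finset MvPolynomial

variable {n ν : ℕ}

/-- The point with the block bits `z`; `β i` is the block of the coordinate `i`. -/
def tie (c : Ex n) (β : Fin n → Option (Fin ν)) (z : Ex ν) : Ex n := fun i => c i + (β i).elim 0 z

/-- The coordinates as polynomials in the block bits. -/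
noncomputable def tieP (c : Ex n) (β : Fin n → Option (Fin ν)) (i : Fin n) :
    MvPolynomial (Fin ν) (ZMod 2) := C (c i) + (β i).elim 0 X

theorem eval_tieP (c : Ex n) (β : Fin n → Option (Fin ν)) (z : Ex ν) (i : Fin n) :
    eval z (tieP c β i) = tie c β z i := by
  unfold tieP tie
  rcases β i with _ | B <;> simp

theorem totalDegree_tieP_le (c : Ex n) (β : Fin n → Option (Fin ν)) (i : Fin n) :
    (tieP c β i).totalDegree ≤ 1 := by
  unfold tieP
  refine (totalDegree_add _ _).trans ?_
  rw [totalDegree_C]
  rcases β i with _ | B <;> simp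

theorem totalDegree_aeval_le (f : Fin n → MvPolynomial (Fin ν) (ZMod 2))
    (hf : ∀ i, (f i).totalDegree ≤ 1) (p : MvPolynomial (Fin n) (ZMod 2)) :
    (aeval f p).totalDegree ≤ p.totalDegree := by
  rw [aeval_def, eval₂_eq']
  refine totalDegree_finsetSum_le fun d hd => ?_
  refine (totalDegree_mul _ _).trans ?_
  rw [show algebraMap (ZMod 2) (MvPolynomial (Fin ν) (ZMod 2)) = C from rfl, totalDegree_C,
    zero_add]
  refine (totalDegree_finsetProd _ _).trans ?_
  have h1 : ∑ i, (f i ^ d i).totalDegree ≤ ∑ i, d i := by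
    refine Finset.sum_le_sum fun i _ => (totalDegree_pow _ _).trans ?_
    calc d i * (f i).totalDegree ≤ d i * 1 := Nat.mul_le_mul_left _ (hf i)
      _ = d i := mul_one _
  refine h1.trans ?_
  have h2 := le_totalDegree hd
  rwa [Finsupp.sum_fintype _ _ (fun _ => rfl)] at h2

theorem eval_aeval_tieP (c : Ex n) (β : Fin n → Option (Fin ν)) (z : Ex ν)
    (p : MvPolynomial (Fin n) (ZMod 2)) :
    eval z (aeval (tieP c β) p) = eval (tie c β z) p := by
  induction p using MvPolynomial.induction_on with
  | C a => simp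
  | add p q hp hq => rw [map_add, map_add, hp, hq, map_add]
  | mul_X p i hp => rw [map_mul, map_mul, hp, aeval_X, eval_tieP, map_mul, eval_X]

open scoped Classical in
/-- A rule in the block variables. -/
noncomputable def pullRule (c : Ex n) (β : Fin n → Option (Fin ν)) (r : Rule n) : Rule ν :=
  if (∃ i ∈ r.pos, β i = none ∧ c i = 0) ∨ (∃ i ∈ r.neg, β i = none ∧ c i = 1) then
    ⟨∅, ∅, [1], r.out⟩
  else
    ⟨univ.filter fun B => ∃ i, β i = some B ∧ ((i ∈ r.pos ∧ c i = 0) ∨ (i ∈ r.neg ∧ c i = 1)),
      univ.filter fun B => ∃ i, β i = some B ∧ ((i ∈ r.pos ∧ c i = 1) ∨ (i ∈ r.neg ∧ c i = 0)),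
      r.test.map (aeval (tieP c β)), r.out⟩

theorem zmod_two_or (x : ZMod 2) : x = 0 ∨ x = 1 := by
  revert x
  decide

theorem pullRule_out (c : Ex n) (β : Fin n → Option (Fin ν)) (r : Rule n) :
    (pullRule c β r).out = r.out := by
  unfold pullRule
  split_ifs <;> rfl

theorem passes_map (c : Ex n) (β : Fin n → Option (Fin ν)) (z : Ex ν)
    (T : List (MvPolynomial (Fin n) (ZMod 2))) :
    Passes (T.map (aeval (tieP c β))) z ↔ Passes T (tie c β z) := by
  unfold Passes
  simp only [List.mem_map, forall_exists_index, and_imp, forall_apply_eq_imp_iff₂,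
    eval_aeval_tieP]

theorem tie_some {c : Ex n} {β : Fin n → Option (Fin ν)} (z : Ex ν) {i : Fin n} {B : Fin ν}
    (h : β i = some B) : tie c β z i = c i + z B := by
  unfold tie
  rw [h]
  rfl

theorem tie_none {c : Ex n} {β : Fin n → Option (Fin ν)} (z : Ex ν) {i : Fin n}
    (h : β i = none) : tie c β z i = c i := by
  unfold tie
  rw [h]
  exact add_zero _

theorem pullRule_iff (c : Ex n) (β : Fin n → Option (Fin ν)) (r : Rule n) (z : Ex ν) :
    (Lits (pullRule c β r) z ∧ Passes (pullRule c β r).test z) ↔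
      (Lits r (tie c β z) ∧ Passes r.test (tie c β z)) := by
  classical
  by_cases h : (∃ i ∈ r.pos, β i = none ∧ c i = 0) ∨ (∃ i ∈ r.neg, β i = none ∧ c i = 1)
  · have e : pullRule c β r = ⟨∅, ∅, [1], r.out⟩ := if_pos h
    constructor
    · rintro ⟨-, h2⟩
      rw [e] at h2
      have := h2 1 (by simp)
      simp at this
    · rintro ⟨h1, -⟩
      exfalso
      rcases h with ⟨i, hi, h2, h3⟩ | ⟨i, hi, h2, h3⟩
      · have h4 := h1.1 i hi
        rw [tie_none z h2, h3] at h4
        exact zero_ne_one h4
      · have h4 := h1.2 i hi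
        rw [tie_none z h2, h3] at h4
        exact one_ne_zero h4
  · have e : pullRule c β r = ⟨univ.filter fun B => ∃ i, β i = some B ∧
          ((i ∈ r.pos ∧ c i = 0) ∨ (i ∈ r.neg ∧ c i = 1)),
        univ.filter fun B => ∃ i, β i = some B ∧
          ((i ∈ r.pos ∧ c i = 1) ∨ (i ∈ r.neg ∧ c i = 0)),
        r.test.map (aeval (tieP c β)), r.out⟩ := if_neg h
    rw [e]
    refine and_congr ?_ (passes_map c β z r.test)
    push Not at h
    obtain ⟨hp, hn⟩ := h
    have key : ∀ (x y : ZMod 2), (x + y = 1 ↔ (x = 0 ∧ y = 1) ∨ (x = 1 ∧ y = 0)) ∧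
        (x + y = 0 ↔ (x = 0 ∧ y = 0) ∨ (x = 1 ∧ y = 1)) := by decide
    unfold Lits
    simp only [mem_filter, mem_univ, true_and]
    constructor
    · rintro ⟨h1, h2⟩
      refine ⟨fun i hi => ?_, fun i hi => ?_⟩
      · rcases hb : β i with _ | B
        · rw [tie_none z hb]
          rcases zmod_two_or (c i) with hc | hc
          · exact absurd hc (hp i hi hb)
          · exact hc
        · rw [tie_some z hb, (key _ _).1]
          rcases zmod_two_or (c i) with hc | hc
          · exact Or.inl ⟨hc, h1 B ⟨i, hb, Or.inl ⟨hi, hc⟩⟩⟩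
          · exact Or.inr ⟨hc, h2 B ⟨i, hb, Or.inl ⟨hi, hc⟩⟩⟩
      · rcases hb : β i with _ | B
        · rw [tie_none z hb]
          rcases zmod_two_or (c i) with hc | hc
          · exact hc
          · exact absurd hc (hn i hi hb)
        · rw [tie_some z hb, (key _ _).2]
          rcases zmod_two_or (c i) with hc | hc
          · exact Or.inl ⟨hc, h2 B ⟨i, hb, Or.inr ⟨hi, hc⟩⟩⟩
          · exact Or.inr ⟨hc, h1 B ⟨i, hb, Or.inr ⟨hi, hc⟩⟩⟩
    · rintro ⟨h1, h2⟩
      refine ⟨?_, ?_⟩
      · rintro B ⟨i, hb, ⟨hi, hc⟩ | ⟨hi, hc⟩⟩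
        · have h3 := h1 i hi
          rw [tie_some z hb, (key _ _).1, hc] at h3
          simpa using h3
        · have h3 := h2 i hi
          rw [tie_some z hb, (key _ _).2, hc] at h3
          simpa using h3
      · rintro B ⟨i, hb, ⟨hi, hc⟩ | ⟨hi, hc⟩⟩
        · have h3 := h1 i hi
          rw [tie_some z hb, (key _ _).1, hc] at h3
          simpa using h3
        · have h3 := h2 i hi
          rw [tie_some z hb, (key _ _).2, hc] at h3
          simpa using h3

theorem wide_pullRule (c : Ex n) (β : Fin n → Option (Fin ν)) (r : Rule n)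
    (h : Wide (pullRule c β r)) : Wide r := by
  classical
  unfold pullRule at h
  split_ifs at h with h0
  · exfalso
    unfold Wide at h
    simp at h
  · obtain ⟨B, hB⟩ := h
    rw [mem_union, mem_filter, mem_filter] at hB
    rcases hB with ⟨-, i, -, ⟨hi, -⟩ | ⟨hi, -⟩⟩ | ⟨-, i, -, ⟨hi, -⟩ | ⟨hi, -⟩⟩
    · exact ⟨i, mem_union_left _ hi⟩
    · exact ⟨i, mem_union_right _ hi⟩
    · exact ⟨i, mem_union_left _ hi⟩
    · exact ⟨i, mem_union_right _ hi⟩

theorem tdeg_pullRule (c : Ex n) (β : Fin n → Option (Fin ν)) (r : Rule n) :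
    tdeg (pullRule c β r).test ≤ tdeg r.test := by
  classical
  unfold pullRule
  split_ifs with h0
  · have : tdeg ([1] : List (MvPolynomial (Fin ν) (ZMod 2))) = 0 := by
      unfold tdeg
      simp
    show tdeg ([1] : List (MvPolynomial (Fin ν) (ZMod 2))) ≤ _
    rw [this]
    exact Nat.zero_le _
  · show tdeg (r.test.map (aeval (tieP c β))) ≤ _
    unfold tdeg
    rw [List.map_map]
    exact List.sum_le_sum fun p _ => totalDegree_aeval_le _ (totalDegree_tieP_le c β) p

/-- The decision lists in the block variables. -/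
noncomputable def pull (c : Ex n) (β : Fin n → Option (Fin ν)) (D : Lists n) : Lists ν where
  len := D.len
  rules := fun l => (D.rules l).map (pullRule c β)
  default := D.default

theorem run_pull (c : Ex n) (β : Fin n → Option (Fin ν)) (z : Ex ν) (d : ZMod 2) :
    ∀ R : List (Rule n), run z d (R.map (pullRule c β)) = run (tie c β z) d R := by
  intro R
  induction R with
  | nil => rfl
  | cons r R ih =>
    rw [List.map_cons]
    unfold run
    rw [ih, pullRule_out]
    by_cases h : Lits r (tie c β z) ∧ Passes r.test (tie c β z)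
    · rw [if_pos h, if_pos ((pullRule_iff c β r z).2 h)]
    · rw [if_neg h, if_neg fun h' => h ((pullRule_iff c β r z).1 h')]

theorem vals_pull (c : Ex n) (β : Fin n → Option (Fin ν)) (D : Lists n) (z : Ex ν) :
    (pull c β D).vals z = D.vals (tie c β z) := by
  funext l
  exact run_pull c β z (D.default l) (D.rules l)

theorem filter_wide_le (c : Ex n) (β : Fin n → Option (Fin ν)) :
    ∀ R : List (Rule n), ((R.map (pullRule c β)).filter fun r => Wide r).length ≤
      (R.filter fun r => Wide r).length := by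
  intro R
  induction R with
  | nil => simp
  | cons r R ih =>
    rw [List.map_cons]
    by_cases h : Wide (pullRule c β r)
    · rw [List.filter_cons_of_pos (by simpa using h),
        List.filter_cons_of_pos (by simpa using wide_pullRule c β r h)]
      simpa using ih
    · rw [List.filter_cons_of_neg (by simpa using h)]
      refine ih.trans ?_
      by_cases h' : Wide r
      · rw [List.filter_cons_of_pos (by simpa using h')]
        simp
      · rw [List.filter_cons_of_neg (by simpa using h')]

theorem bound_pull (c : Ex n) (β : Fin n → Option (Fin ν)) (D : Lists n) (L s k : ℕ)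
    (h : D.Bound L s k) : (pull c β D).Bound L s k := by
  obtain ⟨h1, h2, w, h3, h4⟩ := h
  refine ⟨h1, ?_, w, ?_, h4⟩
  · exact (Finset.sum_le_sum fun l _ => filter_wide_le c β (D.rules l)).trans h2
  · intro l r hr
    obtain ⟨r', hr', rfl⟩ := List.mem_map.1 hr
    exact (tdeg_pullRule c β r').trans (h3 l r' hr')

theorem wid_mono {ν n : ℕ} (h : ν ≤ n) (L s : ℕ) : wid ν L s ≤ wid n L s := by
  unfold wid
  split_ifs with hs
  · exact le_refl _
  · have h1 : (ν : ℝ) ≤ n := by exact_mod_cast h
    have h2 : 0 ≤ Real.log s := Real.log_natCast_nonneg s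
    gcongr

end Pool.Agent.H40.AE
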