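import Pool.Agent.H40.AE.Comb

/-!
# Rounding by the exponential potential
-/

set_option autoImplicit false

namespace Pool.Agent.H40.AE

open Finset MeasureTheory

/-- Hoeffding's lemma for a random sign with mean `z`. -/
theorem two_point (z s : ℝ) (h1 : -1 ≤ z) (h2 : z ≤ 1) :
    (1 + z) / 2 * Real.exp (s * (1 - z)) + (1 - z) / 2 * Real.exp (s * (-1 - z)) ≤
      Real.exp (s ^ 2 / 2) := by
  let μ : Measure Bool := ENNReal.ofReal ((1 + z) / 2) • Measure.dirac true +
    ENNReal.ofReal ((1 - z) / 2) • Measure.dirac false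
  have hp : 0 ≤ (1 + z) / 2 := by linarith
  have hq : 0 ≤ (1 - z) / 2 := by linarith
  have hμ : IsProbabilityMeasure μ := by
    constructor
    show (ENNReal.ofReal ((1 + z) / 2) • Measure.dirac true +
      ENNReal.ofReal ((1 - z) / 2) • Measure.dirac false : Measure Bool) Set.univ = 1
    rw [Measure.add_apply, Measure.smul_apply, Measure.smul_apply, measure_univ, measure_univ,
      smul_eq_mul, smul_eq_mul, mul_one, mul_one, ← ENNReal.ofReal_add hp hq]
    have : (1 + z) / 2 + (1 - z) / 2 = 1 := by ring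
    rw [this, ENNReal.ofReal_one]
  have hint : ∀ f : Bool → ℝ, ∫ b, f b ∂μ = (1 + z) / 2 * f true + (1 - z) / 2 * f false := by
    intro f
    show ∫ b, f b ∂(ENNReal.ofReal ((1 + z) / 2) • Measure.dirac true +
      ENNReal.ofReal ((1 - z) / 2) • Measure.dirac false : Measure Bool) = _
    rw [integral_add_measure
        ((Integrable.of_finite : Integrable f (Measure.dirac true)).smul_measure
          ENNReal.ofReal_ne_top)
        ((Integrable.of_finite : Integrable f (Measure.dirac false)).smul_measure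
          ENNReal.ofReal_ne_top),
      integral_smul_measure, integral_smul_measure, integral_dirac, integral_dirac,
      ENNReal.toReal_ofReal hp, ENNReal.toReal_ofReal hq, smul_eq_mul, smul_eq_mul]
  let X : Bool → ℝ := fun b => if b then 1 - z else -1 - z
  have hX := ProbabilityTheory.hasSubgaussianMGF_of_mem_Icc_of_integral_eq_zero (μ := μ) (X := X)
    (a := -1 - z) (b := 1 - z) (measurable_of_finite X).aemeasurable
    (Filter.Eventually.of_forall fun b => by
      cases b
      · show -1 - z ∈ Set.Icc (-1 - z) (1 - z)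
        constructor <;> linarith
      · show 1 - z ∈ Set.Icc (-1 - z) (1 - z)
        constructor <;> linarith) (by
      rw [hint]
      show (1 + z) / 2 * (1 - z) + (1 - z) / 2 * (-1 - z) = 0
      ring)
  have h3 := hX.mgf_le s
  unfold ProbabilityTheory.mgf at h3
  rw [hint] at h3
  have h4 : (((‖(1 - z) - (-1 - z)‖₊ / 2) ^ 2 : NNReal) : ℝ) = 1 := by
    have : (1 - z) - (-1 - z) = 2 := by ring
    rw [this]
    simp
  rw [h4, one_mul] at h3
  exact h3

/-- Rounding keeps the exponential potential small. -/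
theorem exists_round {ι J : Type*} [DecidableEq ι] [Fintype J] (d : J → ι → ℝ)
    (hd : ∀ j u, |d j u| ≤ 1) (z : ι → ℝ) (hz : ∀ u, |z u| ≤ 1) (l : ℝ) (F : Finset ι) :
    ∀ A : J → ℝ, (∀ j, 0 ≤ A j) →
      ∃ ρ : ι → ℝ, (∀ u, ρ u = 1 ∨ ρ u = -1) ∧
        ∑ j, A j * Real.exp (l * ∑ u ∈ F, d j u * (ρ u - z u)) ≤
          (∑ j, A j) * Real.exp (l ^ 2 / 2 * F.card) := by
  induction F using Finset.induction_on with
  | empty =>
    intro A _
    exact ⟨fun _ => 1, fun _ => Or.inl rfl, by simp⟩
  | insert v F hv ih =>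
    intro A hA
    have hzv := abs_le.1 (hz v)
    have hkey : (1 + z v) / 2 * ∑ j, A j * Real.exp (l * (d j v * (1 - z v))) +
        (1 - z v) / 2 * ∑ j, A j * Real.exp (l * (d j v * (-1 - z v))) ≤
        (∑ j, A j) * Real.exp (l ^ 2 / 2) := by
      rw [Finset.mul_sum, Finset.mul_sum, ← Finset.sum_add_distrib, Finset.sum_mul]
      refine Finset.sum_le_sum fun j _ => ?_
      have h1 := two_point (z v) (l * d j v) hzv.1 hzv.2
      have h2 : Real.exp ((l * d j v) ^ 2 / 2) ≤ Real.exp (l ^ 2 / 2) := by
        apply Real.exp_le_exp.2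
        have h3 : (d j v) ^ 2 ≤ 1 := by
          have := hd j v
          rw [← sq_abs]
          nlinarith [abs_nonneg (d j v)]
        nlinarith [sq_nonneg l]
      have h4 := mul_le_mul_of_nonneg_left (h1.trans h2) (hA j)
      have e1 : l * d j v * (1 - z v) = l * (d j v * (1 - z v)) := by ring
      have e2 : l * d j v * (-1 - z v) = l * (d j v * (-1 - z v)) := by ring
      rw [e1, e2] at h4
      linarith
    have hstep : ∃ s : ℝ, (s = 1 ∨ s = -1) ∧
        ∑ j, A j * Real.exp (l * (d j v * (s - z v))) ≤ (∑ j, A j) * Real.exp (l ^ 2 / 2) := by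
      by_contra hcon
      push Not at hcon
      have h1 := hcon 1 (Or.inl rfl)
      have h2 := hcon (-1) (Or.inr rfl)
      have h3 : (0 : ℝ) ≤ (1 + z v) / 2 := by linarith
      have h4 : (0 : ℝ) ≤ (1 - z v) / 2 := by linarith
      set a := ∑ j, A j * Real.exp (l * (d j v * (1 - z v)))
      set b := ∑ j, A j * Real.exp (l * (d j v * (-1 - z v)))
      set c := (∑ j, A j) * Real.exp (l ^ 2 / 2)
      have h5 : (1 + z v) / 2 * c ≤ (1 + z v) / 2 * a := mul_le_mul_of_nonneg_left h1.le h3
      have h6 : (1 - z v) / 2 * c ≤ (1 - z v) / 2 * b := mul_le_mul_of_nonneg_left h2.le h4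
      rcases h3.lt_or_eq with h7 | h7
      · have h8 : (1 + z v) / 2 * c < (1 + z v) / 2 * a := mul_lt_mul_of_pos_left h1 h7
        nlinarith
      · have h9 : z v = -1 := by linarith
        rw [h9] at hkey h6
        have h8 : (1 - (-1 : ℝ)) / 2 = 1 := by norm_num
        have h10 : (1 + (-1 : ℝ)) / 2 = 0 := by norm_num
        rw [h8, h10] at hkey
        linarith
    obtain ⟨s, hs, hs2⟩ := hstep
    obtain ⟨ρ, hρ, hρ2⟩ := ih (fun j => A j * Real.exp (l * (d j v * (s - z v))))
      (fun j => mul_nonneg (hA j) (Real.exp_pos _).le)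
    refine ⟨Function.update ρ v s, ?_, ?_⟩
    · intro u
      by_cases hu : u = v
      · rw [hu, Function.update_self]
        exact hs
      · rw [Function.update_of_ne hu]
        exact hρ u
    · have e1 : ∀ j, A j * Real.exp (l * ∑ u ∈ insert v F, d j u * (Function.update ρ v s u - z u)) =
          A j * Real.exp (l * (d j v * (s - z v))) *
            Real.exp (l * ∑ u ∈ F, d j u * (ρ u - z u)) := by
        intro j
        rw [Finset.sum_insert hv, Function.update_self, mul_assoc, ← Real.exp_add]
        congr 2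
        rw [mul_add]
        congr 2
        refine Finset.sum_congr rfl fun u hu => ?_
        rw [Function.update_of_ne fun h => hv (by rwa [← h])]
      simp only [e1]
      refine hρ2.trans ?_
      rw [Finset.card_insert_of_notMem hv]
      calc (∑ j, A j * Real.exp (l * (d j v * (s - z v)))) * Real.exp (l ^ 2 / 2 * F.card) ≤
            ((∑ j, A j) * Real.exp (l ^ 2 / 2)) * Real.exp (l ^ 2 / 2 * F.card) :=
            mul_le_mul_of_nonneg_right hs2 (Real.exp_pos _).le
        _ = (∑ j, A j) * Real.exp (l ^ 2 / 2 * ((F.card + 1 : ℕ) : ℝ)) := by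
            rw [mul_assoc, ← Real.exp_add]
            congr 2
            push_cast
            ring

/-- Signs for which `m` linear forms are small. -/
theorem exists_signs_log {ι : Type*} [DecidableEq ι] (U : Finset ι) (m : ℕ) (c : Fin m → ι → ℝ)
    (W : Fin m → ℝ) (hW : ∀ i, ∀ u ∈ U, |c i u| ≤ W i) (hW0 : ∀ i, 0 ≤ W i) :
    ∃ y : ι → ℝ, (∀ u, y u = 1 ∨ y u = -1) ∧
      ∀ i, |∑ u ∈ U, c i u * y u| ≤ Real.sqrt (2 * m * Real.log (2 * m + 1)) * W i := by
  classical
  rcases Nat.eq_zero_or_pos m with hm0 | hm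
  · subst hm0
    exact ⟨fun _ => 1, fun _ => Or.inl rfl, fun i => i.elim0⟩
  obtain ⟨z, hz1, hz2, hz3⟩ := exists_balanced U m c
  set F := U.filter fun u => |z u| ≠ 1 with hF
  have hmr : (0 : ℝ) < m := by exact_mod_cast hm
  have hlog : 0 < Real.log (2 * m + 1) := Real.log_pos (by linarith)
  set l := Real.sqrt (2 * Real.log (2 * m + 1) / m) with hl
  have hl0 : 0 < l := Real.sqrt_pos.2 (by positivity)
  have hl2 : l ^ 2 = 2 * Real.log (2 * m + 1) / m := Real.sq_sqrt (by positivity)
  set z' : ι → ℝ := fun u => if u ∈ U then z u else 0 with hz'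
  have hz'1 : ∀ u, |z' u| ≤ 1 := by
    intro u
    by_cases h : u ∈ U
    · rw [hz']
      simp only [if_pos h]
      exact hz1 u h
    · rw [hz']
      simp only [if_neg h]
      norm_num
  set d : Fin m × Bool → ι → ℝ := fun j u =>
    if u ∈ U then (if j.2 then c j.1 u / W j.1 else -(c j.1 u / W j.1)) else 0 with hd
  have hd1 : ∀ j u, |d j u| ≤ 1 := by
    intro j u
    by_cases h : u ∈ U
    · have h1 : |c j.1 u / W j.1| ≤ 1 := by
        rw [abs_div, abs_of_nonneg (hW0 j.1)]
        exact div_le_one_of_le₀ (hW j.1 u h) (hW0 j.1)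
      rw [hd]
      simp only [if_pos h]
      split_ifs
      · exact h1
      · rw [abs_neg]
        exact h1
    · rw [hd]
      simp only [if_neg h]
      norm_num
  obtain ⟨ρ, hρ, hρ2⟩ := exists_round d hd1 z' hz'1 l F (fun _ => 1) (fun _ => by norm_num)
  simp only [one_mul, Finset.sum_const, Finset.card_univ, Fintype.card_prod, Fintype.card_fin,
    Fintype.card_bool, nsmul_eq_mul, mul_one] at hρ2
  -- the bound for one form
  have hone : ∀ j : Fin m × Bool, ∑ u ∈ F, d j u * (ρ u - z' u) ≤
      Real.sqrt (2 * m * Real.log (2 * m + 1)) := by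
    intro j
    have h1 : Real.exp (l * ∑ u ∈ F, d j u * (ρ u - z' u)) ≤
        ((m * 2 : ℕ) : ℝ) * Real.exp (l ^ 2 / 2 * F.card) :=
      le_trans (Finset.single_le_sum (f := fun j => Real.exp (l * ∑ u ∈ F, d j u * (ρ u - z' u)))
        (fun _ _ => (Real.exp_pos _).le) (mem_univ j)) hρ2
    have h2 : ((m * 2 : ℕ) : ℝ) * Real.exp (l ^ 2 / 2 * F.card) ≤
        Real.exp (Real.log (2 * m + 1) + l ^ 2 / 2 * m) := by
      rw [Real.exp_add, Real.exp_log (by linarith)]
      apply mul_le_mul _ _ (Real.exp_pos _).le (by linarith)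
      · push_cast
        linarith
      · apply Real.exp_le_exp.2
        apply mul_le_mul_of_nonneg_left _ (by positivity)
        exact_mod_cast hz3
    have h3 := Real.exp_le_exp.1 (h1.trans h2)
    have h4 : Real.log (2 * m + 1) + l ^ 2 / 2 * m = l * Real.sqrt (2 * m * Real.log (2 * m + 1)) := by
      have e1 : l * Real.sqrt (2 * m * Real.log (2 * m + 1)) = 2 * Real.log (2 * m + 1) := by
        rw [hl, ← Real.sqrt_mul (by positivity)]
        have e2 : 2 * Real.log (2 * m + 1) / m * (2 * m * Real.log (2 * m + 1)) =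
            (2 * Real.log (2 * m + 1)) ^ 2 := by
          field_simp
        rw [e2, Real.sqrt_sq (by positivity)]
      rw [e1, hl2]
      field_simp
      norm_num
    rw [h4] at h3
    exact le_of_mul_le_mul_left h3 hl0
  refine ⟨fun u => if u ∈ U ∧ |z u| = 1 then z u else ρ u, ?_, ?_⟩
  · intro u
    by_cases h : u ∈ U ∧ |z u| = 1
    · simp only [if_pos h]
      rcases abs_eq (by norm_num : (0 : ℝ) ≤ 1) |>.1 h.2 with h1 | h1
      · exact Or.inl h1
      · exact Or.inr h1
    · simp only [if_neg h]
      exact hρ u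
  · intro i
    rcases (hW0 i).lt_or_eq with hWi | hWi
    · have e1 : ∑ u ∈ U, c i u * (if u ∈ U ∧ |z u| = 1 then z u else ρ u) =
          W i * ∑ u ∈ F, d (i, true) u * (ρ u - z' u) := by
        have e2 : ∑ u ∈ U, c i u * (if u ∈ U ∧ |z u| = 1 then z u else ρ u) =
            ∑ u ∈ U, c i u * ((if u ∈ U ∧ |z u| = 1 then z u else ρ u) - z u) := by
          have : ∀ u, c i u * ((if u ∈ U ∧ |z u| = 1 then z u else ρ u) - z u) =
              c i u * (if u ∈ U ∧ |z u| = 1 then z u else ρ u) - c i u * z u := fun u => by ring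
          simp only [this]
          rw [Finset.sum_sub_distrib, hz2 i, sub_zero]
        rw [e2, Finset.mul_sum, hF, Finset.sum_filter]
        refine Finset.sum_congr rfl fun u hu => ?_
        by_cases h : |z u| = 1
        · rw [if_pos ⟨hu, h⟩, if_neg (by simpa using h), sub_self, mul_zero]
        · rw [if_neg (fun h' => h h'.2), if_pos h, hd, hz']
          simp only [if_pos hu, if_true]
          field_simp
      rw [e1, abs_mul, abs_of_pos hWi, mul_comm]
      apply mul_le_mul_of_nonneg_right _ hWi.le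
      rw [abs_le]
      refine ⟨?_, hone (i, true)⟩
      have h1 := hone (i, false)
      have e2 : ∑ u ∈ F, d (i, false) u * (ρ u - z' u) =
          -∑ u ∈ F, d (i, true) u * (ρ u - z' u) := by
        rw [← Finset.sum_neg_distrib]
        refine Finset.sum_congr rfl fun u _ => ?_
        rw [hd]
        by_cases h : u ∈ U
        · simp only [if_pos h, if_true, Bool.false_eq_true, if_false]
          ring
        · simp only [if_neg h]
          ring
      rw [e2] at h1
      linarith
    · rw [← hWi, mul_zero, Finset.sum_eq_zero, abs_zero]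
      intro u hu
      have h1 := hW i u hu
      rw [← hWi] at h1
      have h2 : c i u = 0 := abs_eq_zero.1 (le_antisymm h1 (abs_nonneg _))
      rw [h2, zero_mul]

end Pool.Agent.H40.AE
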