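import Pool.Agent.H40.AE.Pull
import Pool.Agent.H40.AE.Block
import Pool.Agent.H40.AE.Comb

/-!
# One mistake

For a hypothesis that is a function of threshold gates, of a sum in an abelian group and of decision
lists there is an example on which it is wrong for almost all pairs of variables.
-/

set_option autoImplicit false

namespace Pool.Agent.H40.AE

open Finset

/-- The sum of the elements `g i` over the bits of `x` that are `1`. -/
def gsum {G : Type*} [AddCommGroup G] {n : ℕ} (g : Fin n → G) (x : Ex n) : G :=
  ∑ i, if x i = 1 then g i else 0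

section sums

variable {ι κ H : Type*} [Fintype ι] [Fintype κ] [AddCommGroup H]

theorem sum_ite_sub (f : κ → ι) (hf : Function.Injective f) (x y : ι → ZMod 2)
    (hxy : ∀ i, (∀ p, f p ≠ i) → x i = y i) (w : ι → H) :
    (∑ i, if x i = 1 then w i else 0) - ∑ i, (if y i = 1 then w i else 0) =
      ∑ p, ((if x (f p) = 1 then w (f p) else 0) - if y (f p) = 1 then w (f p) else 0) := by
  classical
  rw [← Finset.sum_sub_distrib]
  have h1 : ∑ i ∈ univ.image f, ((if x i = 1 then w i else 0) - if y i = 1 then w i else 0) =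
      ∑ i, ((if x i = 1 then w i else 0) - if y i = 1 then w i else 0) := by
    refine Finset.sum_subset (subset_univ _) fun i _ hi => ?_
    rw [hxy i fun p hp => hi (mem_image.2 ⟨p, mem_univ _, hp⟩), sub_self]
  rw [← h1, Finset.sum_image fun a _ b _ h => hf h]

theorem sum_blocks {ν : ℕ} (β : ι → Option (Fin ν)) (z : Fin ν → ZMod 2) (V : Finset ι)
    (hV : ∀ u, β u ≠ none → u ∈ V) (w : ι → H) :
    ∑ u, (β u).elim 0 (fun B => if z B = 1 then w u else 0) =
      ∑ B, if z B = 1 then ∑ u ∈ V.filter (fun u => β u = some B), w u else 0 := by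
  classical
  have h1 : ∀ u, (β u).elim 0 (fun B => if z B = 1 then w u else 0) =
      ∑ B, if β u = some B then (if z B = 1 then w u else 0) else 0 := by
    intro u
    rcases h : β u with _ | c
    · simp
    · rw [Finset.sum_eq_single c]
      · simp
      · intro B _ hB
        rw [if_neg]
        intro h'
        exact hB (Option.some.inj h').symm
      · intro h'
        exact absurd (mem_univ c) h'
  rw [Finset.sum_congr rfl fun u _ => h1 u, Finset.sum_comm]
  refine Finset.sum_congr rfl fun B _ => ?_
  rw [← Finset.sum_filter]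
  have h2 : (univ : Finset ι).filter (fun u => β u = some B) =
      V.filter fun u => β u = some B := by
    ext u
    rw [mem_filter, mem_filter]
    exact ⟨fun h => ⟨hV u (by rw [h.2]; simp), h.2⟩, fun h => ⟨mem_univ _, h.2⟩⟩
  rw [h2]
  split_ifs
  · rfl
  · exact Finset.sum_const_zero

end sums

variable {n m K M : ℕ}

/-- The values of a group valued sum at the points with block bits. -/
theorem gsum_tie {H : Type*} [AddCommGroup H] {ν : ℕ} (a : Fin M → Fin n)
    (ha : Function.Injective a) (β : Fin M → Option (Fin ν)) (e : Fin M → Bool)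
    (V : Finset (Fin M)) (hV : ∀ u, β u ≠ none → u ∈ V) (c : Ex n)
    (hc : ∀ u, β u ≠ none → c (a u) = if e u then 0 else 1) (z : Ex ν) (g : Fin n → H) :
    gsum g (tie c (Function.extend a β fun _ => none) z) = gsum g c +
      ∑ B, if z B = 1 then
        ∑ u ∈ V.filter (fun u => β u = some B), sgn e (fun u => g (a u)) u else 0 := by
  have h0 : ∀ i, (∀ u, a u ≠ i) → Function.extend a β (fun _ => none) i = none := by
    intro i hi
    exact Function.extend_apply' _ _ _ fun ⟨u, hu⟩ => hi u hu
  rw [← sum_blocks β z V hV, ← sub_eq_iff_eq_add']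
  unfold gsum
  rw [sum_ite_sub a ha _ _ (fun i hi => tie_none z (h0 i hi))]
  refine Finset.sum_congr rfl fun u _ => ?_
  have h1 : Function.extend a β (fun _ => none) (a u) = β u := ha.extend_apply _ _ _
  rcases h : β u with _ | B
  · rw [h] at h1
    rw [tie_none z h1]
    simp
  · rw [h] at h1
    rw [tie_some z h1, hc u (by rw [h]; simp)]
    show _ = if z B = 1 then sgn e (fun u => g (a u)) u else 0
    unfold sgn
    rcases zmod_two_or (z B) with hz | hz
    · rw [hz]
      simp
    · rw [hz]
      rcases e u
      · have : (1 : ZMod 2) + 1 = 0 := by decide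
        simp [this]
      · simp

/-- One mistake. -/
theorem step_block {G : Type*} [AddCommGroup G] (a b : Fin M → Fin n)
    (ha : Function.Injective a) (hb : Function.Injective b) (hab : ∀ u v, a u ≠ b v)
    (weight : Fin m → Fin n → ℝ) (form : Fin K → Fin m) (thr : Fin K → ℝ) (g : Fin n → G)
    (F : Finset G) (hF : ∀ x : Ex n, gsum g x ∈ F) (N t : ℕ) (hN : F.card ≤ N)
    (ht : N * (n + 1) ^ (2 * m) < 2 ^ (t + 1)) (D : Lists n) (L s k : ℕ) (hD : D.Bound L s k)
    (f : (Fin K → Bool) → G → (Fin D.len → ZMod 2) → ZMod 2) (v : Ex n → ZMod 2)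
    (hv : ∀ x, v x = f (fun q => decide (thr q ≤ lin (weight (form q)) x)) (gsum g x) (D.vals x))
    (V : Finset (Fin M)) (hV : m * K ≤ V.card) :
    ∃ (x : Ex n) (U : Finset (Fin M)) (l : ZMod 2), U ⊆ V ∧
      V.card ≤ U.card + (m * K + (wid n L s + k + 1) * t + (wid n L s + k)) ∧
      (∀ i, (∀ u, a u ≠ i) → (∀ u, b u ≠ i) → x i = 0) ∧ v x ≠ l ∧
      ∀ u ∈ U, x (a u) + x (b u) = l := by
  classical
  set e' : ℕ := wid n L s + k with he'
  -- the levers
  obtain ⟨Gr, hG1, hG2, hG3⟩ := exists_groups V
    (fun (p : Fin m × Fin K) u => |weight p.1 (a u)|) 1 (univ : Finset (Fin m × Fin K)) (by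
      rw [Finset.card_univ, Fintype.card_prod, Fintype.card_fin, Fintype.card_fin, mul_one]
      exact hV)
  have hlv : ∀ p, ∃ u, Gr p = {u} := fun p => Finset.card_eq_one.1 (hG1 p (mem_univ _)).2
  choose lv hlv using hlv
  have hlvinj : Function.Injective lv := by
    intro p q hpq
    by_contra hne
    have := hG2 p (mem_univ _) q (mem_univ _) hne
    rw [hlv p, hlv q, hpq, Finset.disjoint_self_iff_empty] at this
    exact Finset.singleton_ne_empty _ this
  set B0 := (univ : Finset (Fin m × Fin K)).image lv with hB0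
  have hB0V : B0 ⊆ V := by
    intro u hu
    obtain ⟨p, -, rfl⟩ := mem_image.1 hu
    exact (hG1 p (mem_univ _)).1 (by rw [hlv p]; exact mem_singleton_self _)
  have hB0c : B0.card ≤ m * K := by
    refine Finset.card_image_le.trans ?_
    rw [Finset.card_univ, Fintype.card_prod, Fintype.card_fin, Fintype.card_fin]
  have hB0U : (univ : Finset (Fin m × Fin K)).biUnion Gr = B0 := by
    ext u
    rw [mem_biUnion, hB0, mem_image]
    constructor
    · rintro ⟨p, hp, hu⟩
      rw [hlv p, mem_singleton] at hu
      exact ⟨p, hp, hu.symm⟩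
    · rintro ⟨p, hp, rfl⟩
      exact ⟨p, hp, by rw [hlv p]; exact mem_singleton_self _⟩
  set U := V \ B0 with hU
  have hUV : U ⊆ V := sdiff_subset
  have hUlv : ∀ u ∈ U, ∀ p, lv p ≠ u := by
    intro u hu p hp
    exact (mem_sdiff.1 hu).2 (mem_image.2 ⟨p, mem_univ _, hp⟩)
  have hWex : ∀ i : Fin m, ∃ W : ℝ, 0 ≤ W ∧ (∀ u ∈ U, |weight i (a u)| ≤ W) ∧
      ∀ k : Fin K, W ≤ |weight i (a (lv (i, k)))| := by
    intro i
    rcases U.eq_empty_or_nonempty with h | h
    · refine ⟨0, le_refl _, ?_, fun k => abs_nonneg _⟩
      rw [h]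
      simp
    · obtain ⟨u, hu, hmax⟩ := Finset.exists_max_image U (fun u => |weight i (a u)|) h
      refine ⟨|weight i (a u)|, abs_nonneg _, hmax, fun k => ?_⟩
      refine hG3 (i, k) (mem_univ _) (lv (i, k)) (by rw [hlv]; exact mem_singleton_self _) u
        (hUV hu) ?_
      rw [hB0U]
      exact (mem_sdiff.1 hu).2
  choose W hW0 hWU hWG using hWex
  -- the sizes
  have hM : 2 * M ≤ n := by
    have h1 : (univ.image a ∪ univ.image b).card = M + M := by
      rw [Finset.card_union_of_disjoint]
      · rw [Finset.card_image_of_injective _ ha, Finset.card_image_of_injective _ hb,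
          Finset.card_univ, Fintype.card_fin]
      · rw [Finset.disjoint_left]
        intro i hi hi'
        obtain ⟨u, -, rfl⟩ := mem_image.1 hi
        obtain ⟨w, -, h⟩ := mem_image.1 hi'
        exact hab u w h.symm
    have h2 := Finset.card_le_univ (univ.image a ∪ univ.image b)
    rw [h1, Fintype.card_fin] at h2
    omega
  have hVM : V.card ≤ M := by
    have := Finset.card_le_univ V
    rwa [Fintype.card_fin] at this
  have hUc : U.card ≤ V.card := Finset.card_le_card hUV
  -- the blocks
  obtain ⟨ν, β, e, hν, hβ, hβn, hβc, hβg, hβw⟩ := exists_blocks (fun u => g (a u)) m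
    (fun i u => weight i (a u)) W hW0 n N t ht F hN U (by omega) (fun i u hu => hWU i u hu) (by
      intro S _
      have h1 := hF (fun i => if i ∈ S.image a then 1 else 0)
      have h2 : gsum g (fun i => if i ∈ S.image a then (1 : ZMod 2) else 0) =
          ∑ u ∈ S, g (a u) := by
        unfold gsum
        have h3 : ∀ i : Fin n, (if (if i ∈ S.image a then (1 : ZMod 2) else 0) = 1 then g i
            else 0) = if i ∈ S.image a then g i else 0 := by
          intro i
          by_cases h : i ∈ S.image a
          · rw [if_pos h, if_pos h, if_pos rfl]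
          · rw [if_neg h, if_neg h, if_neg (by decide)]
        rw [Finset.sum_congr rfl fun i _ => h3 i, Finset.sum_ite_mem, Finset.univ_inter,
          Finset.sum_image fun x _ y _ h => ha h]
      rwa [h2] at h1)
  have hνM : ν ≤ M := hν.trans (hUc.trans hVM)
  -- the base points
  let ca : (Fin m → Fin (K + 1)) → Fin M → ZMod 2 := fun τ =>
    Function.extend lv
      (fun p => if ((p.2 : ℕ) < (τ p.1 : ℕ) ↔ 0 ≤ weight p.1 (a (lv p))) then 1 else 0)
      (fun u => if β u ≠ none ∧ e u = false then 1 else 0)
  let cb : Fin M → ZMod 2 := fun u => if β u ≠ none ∧ e u = true then 1 else 0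
  let c : (Fin m → Fin (K + 1)) → Ex n := fun τ =>
    Function.extend a (ca τ) (Function.extend b cb fun _ => 0)
  have hca : ∀ τ u, c τ (a u) = ca τ u := fun τ u => ha.extend_apply _ _ _
  have hcb : ∀ τ u, c τ (b u) = cb u := by
    intro τ u
    have h1 : c τ (b u) = Function.extend b cb (fun _ => 0) (b u) :=
      Function.extend_apply' _ _ _ fun ⟨w, hw⟩ => hab w u hw
    rw [h1]
    exact hb.extend_apply _ _ _
  have hc0 : ∀ τ i, (∀ u, a u ≠ i) → c τ i = Function.extend b cb (fun _ => 0) i := by
    intro τ i hi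
    exact Function.extend_apply' _ _ _ fun ⟨w, hw⟩ => hi w hw
  have hcal : ∀ τ p, ca τ (lv p) =
      if ((p.2 : ℕ) < (τ p.1 : ℕ) ↔ 0 ≤ weight p.1 (a (lv p))) then 1 else 0 :=
    fun τ p => hlvinj.extend_apply _ _ _
  have hcan : ∀ τ u, (∀ p, lv p ≠ u) → ca τ u = if β u ≠ none ∧ e u = false then 1 else 0 := by
    intro τ u hu
    exact Function.extend_apply' _ _ _ fun ⟨p, hp⟩ => hu p hp
  have hcae : ∀ τ u, β u ≠ none → c τ (a u) = if e u then 0 else 1 := by
    intro τ u hu
    rw [hca, hcan τ u (hUlv u (hβ u hu))]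
    rcases h : e u
    · rw [if_pos ⟨hu, rfl⟩]
      rfl
    · rw [if_neg]
      · rfl
      · rintro ⟨-, h'⟩
        exact Bool.noConfusion h'
  have hcbe : ∀ τ u, β u ≠ none → c τ (b u) = if e u then 1 else 0 := by
    intro τ u hu
    rw [hcb]
    show (if β u ≠ none ∧ e u = true then (1 : ZMod 2) else 0) = _
    rcases h : e u
    · rw [if_neg]
      · rfl
      · rintro ⟨-, h'⟩
        exact Bool.noConfusion h'
    · rw [if_pos ⟨hu, rfl⟩]
      rfl
  -- raising a coordinate of `τ`
  have hline : ∀ (i : Fin m) (τ τ' : Fin m → Fin (K + 1)), (∀ l, l ≠ i → τ l = τ' l) →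
      (τ i : ℕ) < (τ' i : ℕ) → W i ≤ lin (weight i) (c τ') - lin (weight i) (c τ) := by
    intro i τ τ' hoff hlt
    have hal : Function.Injective fun p => a (lv p) := ha.comp hlvinj
    have h1 : lin (weight i) (c τ') - lin (weight i) (c τ) =
        ∑ p, ((if c τ' (a (lv p)) = 1 then weight i (a (lv p)) else 0) -
          if c τ (a (lv p)) = 1 then weight i (a (lv p)) else 0) := by
      unfold lin
      refine sum_ite_sub (fun p => a (lv p)) hal _ _ (fun j hj => ?_) (weight i)
      by_cases h : ∃ u, a u = j
      · obtain ⟨u, rfl⟩ := h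
        rw [hca, hca, hcan τ' u fun p hp => hj p (by show a (lv p) = a u; rw [hp]),
          hcan τ u fun p hp => hj p (by show a (lv p) = a u; rw [hp])]
      · push Not at h
        rw [hc0 τ' j h, hc0 τ j h]
    have hterm : ∀ p : Fin m × Fin K,
        0 ≤ (if c τ' (a (lv p)) = 1 then weight i (a (lv p)) else 0) -
          if c τ (a (lv p)) = 1 then weight i (a (lv p)) else 0 := by
      intro p
      rw [hca, hca, hcal, hcal]
      by_cases hp : p.1 = i
      · rcases le_or_gt 0 (weight i (a (lv p))) with hw | hw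
        · have hw' : 0 ≤ weight p.1 (a (lv p)) := by rw [hp]; exact hw
          simp only [hw', iff_true]
          by_cases h2 : (p.2 : ℕ) < (τ p.1 : ℕ)
          · have h3 : (p.2 : ℕ) < (τ' p.1 : ℕ) := by
              rw [hp] at h2 ⊢
              omega
            rw [if_pos h2, if_pos h3, sub_self]
          · rw [if_neg h2, if_neg (by decide : ¬ ((0 : ZMod 2) = 1)), sub_zero]
            split_ifs
            · exact hw
            · exact le_refl _
            · exact hw
            · exact le_refl _
        · have hw' : ¬ 0 ≤ weight p.1 (a (lv p)) := by rw [hp]; exact not_le.2 hw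
          simp only [hw', iff_false]
          by_cases h2 : (p.2 : ℕ) < (τ p.1 : ℕ)
          · have h3 : (p.2 : ℕ) < (τ' p.1 : ℕ) := by
              rw [hp] at h2 ⊢
              omega
            rw [if_neg (not_not.2 h2), if_neg (not_not.2 h3), sub_self]
          · rw [if_pos h2, if_pos rfl]
            split_ifs
            · rw [sub_self]
            · linarith
            · rw [sub_self]
            · linarith
      · rw [hoff p.1 hp, sub_self]
    have hk : (τ i : ℕ) < K := lt_of_lt_of_le hlt (Nat.lt_succ_iff.1 (τ' i).2)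
    let p0 : Fin m × Fin K := (i, ⟨τ i, hk⟩)
    have hp0 : |weight i (a (lv p0))| =
        (if c τ' (a (lv p0)) = 1 then weight i (a (lv p0)) else 0) -
          if c τ (a (lv p0)) = 1 then weight i (a (lv p0)) else 0 := by
      rw [hca, hca, hcal, hcal]
      have h2 : ((p0.2 : ℕ) < (τ' p0.1 : ℕ)) := hlt
      have h3 : ¬ ((p0.2 : ℕ) < (τ p0.1 : ℕ)) := lt_irrefl _
      rcases le_or_gt 0 (weight i (a (lv p0))) with hw | hw
      · have hw' : 0 ≤ weight p0.1 (a (lv p0)) := hw
        simp only [hw', iff_true]
        rw [if_pos h2, if_neg h3, if_pos rfl, if_neg (by decide : ¬ ((0 : ZMod 2) = 1)), sub_zero,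
          abs_of_nonneg hw]
      · have hw' : ¬ 0 ≤ weight p0.1 (a (lv p0)) := not_le.2 hw
        simp only [hw', iff_false]
        rw [if_neg (not_not.2 h2), if_pos h3, if_pos rfl,
          if_neg (by decide : ¬ ((0 : ZMod 2) = 1)), zero_sub, abs_of_neg hw]
    rw [h1]
    refine (hWG i ⟨τ i, hk⟩).trans ?_
    show |weight i (a (lv p0))| ≤ _
    rw [hp0]
    exact Finset.single_le_sum (f := fun p => (if c τ' (a (lv p)) = 1 then
      weight i (a (lv p)) else 0) - if c τ (a (lv p)) = 1 then weight i (a (lv p)) else 0)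
      (fun p _ => hterm p) (mem_univ p0)
  -- a good point
  have hn1 : (0 : ℝ) < (n : ℝ) + 1 := by positivity
  set ρ : ℝ := ν / (n + 1) with hρ
  have hρ2 : 2 * ρ < 1 := by
    rw [hρ, ← mul_div_assoc, div_lt_one hn1]
    have h1 : 2 * ν < n + 1 := by omega
    exact_mod_cast h1
  obtain ⟨τ, hτ⟩ := exists_good m K form
    (fun q τ => 0 < W (form q) ∧ |lin (weight (form q)) (c τ) - thr q| ≤ ρ * W (form q)) (by
      rintro q τ τ' hoff ⟨hW, h1⟩ ⟨-, h2⟩
      rw [abs_le] at h1 h2
      have h4 : 2 * ρ * W (form q) < 1 * W (form q) := mul_lt_mul_of_pos_right hρ2 hW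
      funext l
      by_cases hl : l = form q
      · rw [hl]
        apply Fin.ext
        rcases lt_trichotomy (τ (form q) : ℕ) (τ' (form q) : ℕ) with h | h | h
        · have h3 := hline _ τ τ' hoff h
          linarith
        · exact h
        · have h3 := hline _ τ' τ (fun l hl => (hoff l hl).symm) h
          linarith
      · exact hoff l hl)
  -- the points given by the block bits
  let pt : Ex ν → Ex n := tie (c τ) (Function.extend a β fun _ => none)
  have hgate : ∀ z q, (thr q ≤ lin (weight (form q)) (pt z) ↔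
      thr q ≤ lin (weight (form q)) (c τ)) := by
    intro z q
    have h1 : lin (weight (form q)) (pt z) = lin (weight (form q)) (c τ) +
        ∑ B, if z B = 1 then ∑ u ∈ U.filter (fun u => β u = some B),
          sgn e (fun u => weight (form q) (a u)) u else 0 :=
      gsum_tie a ha β e U hβ (c τ) (hcae τ) z (weight (form q))
    have h2 : |∑ B, if z B = 1 then ∑ u ∈ U.filter (fun u => β u = some B),
        sgn e (fun u => weight (form q) (a u)) u else 0| ≤ ρ * W (form q) := by
      refine (Finset.abs_sum_le_sum_abs _ _).trans ?_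
      have h3 : ∀ B ∈ (univ : Finset (Fin ν)), |if z B = 1 then
          ∑ u ∈ U.filter (fun u => β u = some B),
            sgn e (fun u => weight (form q) (a u)) u else 0| ≤ W (form q) / (n + 1) := by
        intro B _
        split_ifs
        · rw [le_div_iff₀ hn1]
          exact hβw B (form q)
        · rw [abs_zero]
          have := hW0 (form q)
          positivity
      refine (Finset.sum_le_card_nsmul _ _ _ h3).trans (le_of_eq ?_)
      rw [Finset.card_univ, Fintype.card_fin, nsmul_eq_mul, hρ]
      ring
    rw [abs_le] at h2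
    rcases (hW0 (form q)).lt_or_eq with hWp | hW0'
    · have hnb := hτ q
      rw [not_and, not_le] at hnb
      rcases lt_abs.1 (hnb hWp) with h | h
      · constructor <;> intro _ <;> linarith
      · constructor <;> intro _ <;> linarith
    · rw [← hW0', mul_zero] at h2
      constructor <;> intro _ <;> linarith
  have hgs : ∀ z, gsum g (pt z) = gsum g (c τ) := by
    intro z
    have h1 := gsum_tie a ha β e U hβ (c τ) (hcae τ) z g
    have h2 : (∑ B, if z B = 1 then ∑ u ∈ U.filter (fun u => β u = some B),
        sgn e (fun u => g (a u)) u else 0) = 0 := by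
      refine Finset.sum_eq_zero fun B _ => ?_
      rw [hβg B]
      split_ifs <;> rfl
    rw [h2, add_zero] at h1
    exact h1
  -- the decision lists
  obtain ⟨z, z', -, -, hz, hz', hzz⟩ := twins_wid (univ : Finset (Fin ν)) (fun _ => 0)
    (fun _ => 1) (fun _ _ => zero_ne_one) (fun i hi => absurd (mem_univ i) hi)
    (pull (c τ) (Function.extend a β fun _ => none) D) L s k (bound_pull _ _ D L s k hD)
  rw [vals_pull, vals_pull] at hzz
  have hvv : v (pt z) = v (pt z') := by
    rw [hv, hv, hgs, hgs]
    have h1 : (fun q => decide (thr q ≤ lin (weight (form q)) (pt z))) =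
        fun q => decide (thr q ≤ lin (weight (form q)) (pt z')) := by
      funext q
      rw [decide_eq_decide, hgate z q, hgate z' q]
    rw [h1]
    have h2 : D.vals (pt z) = D.vals (pt z') := hzz
    rw [h2]
  have hν' : wid ν L s + k ≤ e' := by
    rw [he']
    exact Nat.add_le_add_right (wid_mono (by omega) L s) k
  have hoff : ∀ y : Ex ν, ∀ i, (∀ u, a u ≠ i) → (∀ u, b u ≠ i) → pt y i = 0 := by
    intro y i hi hi'
    have h1 : Function.extend a β (fun _ => none) i = none :=
      Function.extend_apply' _ _ _ fun ⟨w, hw⟩ => hi w hw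
    have h2 : pt y i = c τ i := tie_none y h1
    rw [h2, hc0 τ i hi]
    exact Function.extend_apply' _ _ _ fun ⟨w, hw⟩ => hi' w hw
  have hpa : ∀ (y : Ex ν) u B, β u = some B → pt y (a u) = (if e u then 0 else 1) + y B := by
    intro y u B h
    have h1 : Function.extend a β (fun _ => none) (a u) = some B := by
      rw [ha.extend_apply, h]
    have h2 : pt y (a u) = c τ (a u) + y B := tie_some y h1
    rw [h2, hcae τ u (by rw [h]; simp)]
  have hpb : ∀ (y : Ex ν) u, β u ≠ none → pt y (b u) = if e u then 1 else 0 := by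
    intro y u h
    have h1 : Function.extend a β (fun _ => none) (b u) = none :=
      Function.extend_apply' _ _ _ fun ⟨w, hw⟩ => hab w u hw
    have h2 : pt y (b u) = c τ (b u) := tie_none y h1
    rw [h2, hcbe τ u h]
  have hcount : ∀ (y : Ex ν) (r : ZMod 2), (univ.filter fun B => y B ≠ r).card ≤ e' →
      V.card ≤ (U.filter fun u => ∃ B, β u = some B ∧ y B = r).card +
        (m * K + (e' + 1) * t + e') := by
    intro y r hy
    have h1 : V ⊆ B0 ∪ ((U.filter fun u => β u = none) ∪
        ((U.filter fun u => ∃ B, β u = some B ∧ y B = r) ∪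
          (univ.filter fun B => y B ≠ r).biUnion fun B => U.filter fun u => β u = some B)) := by
      intro u hu
      by_cases h : u ∈ B0
      · exact mem_union_left _ h
      · have hu' : u ∈ U := mem_sdiff.2 ⟨hu, h⟩
        refine mem_union_right _ ?_
        rcases h2 : β u with _ | B
        · exact mem_union_left _ (mem_filter.2 ⟨hu', h2⟩)
        · refine mem_union_right _ ?_
          by_cases h3 : y B = r
          · exact mem_union_left _ (mem_filter.2 ⟨hu', B, h2, h3⟩)
          · exact mem_union_right _ (mem_biUnion.2 ⟨B, mem_filter.2 ⟨mem_univ _, h3⟩,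
              mem_filter.2 ⟨hu', h2⟩⟩)
    have h2 := (Finset.card_le_card h1).trans ((Finset.card_union_le _ _).trans
      (Nat.add_le_add_left ((Finset.card_union_le _ _).trans
        (Nat.add_le_add_left (Finset.card_union_le _ _) _)) _))
    have h3 : ((univ.filter fun B => y B ≠ r).biUnion fun B =>
        U.filter fun u => β u = some B).card ≤ e' * (t + 1) :=
      (Finset.card_biUnion_le_card_mul _ _ _ fun B _ => hβc B).trans
        (Nat.mul_le_mul_right _ hy)
    have h4 : (e' + 1) * t + e' = t + e' * (t + 1) := by ring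
    omega
  by_cases hv1 : v (pt z) = 1
  · refine ⟨pt z', U.filter fun u => ∃ B, β u = some B ∧ z' B = 1, 0,
      (filter_subset _ _).trans hUV, hcount z' 1 (hz'.trans hν'), hoff z', ?_, ?_⟩
    · rw [← hvv, hv1]
      exact one_ne_zero
    · intro u hu
      obtain ⟨B, hB, hzB⟩ := (mem_filter.1 hu).2
      rw [hpa z' u B hB, hpb z' u (by rw [hB]; simp), hzB]
      rcases e u <;> decide
  · refine ⟨pt z, U.filter fun u => ∃ B, β u = some B ∧ z B = 0, 1,
      (filter_subset _ _).trans hUV, hcount z 0 (hz.trans hν'), hoff z, hv1, ?_⟩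
    intro u hu
    obtain ⟨B, hB, hzB⟩ := (mem_filter.1 hu).2
    rw [hpa z u B hB, hpb z u (by rw [hB]; simp), hzB]
    rcases e u <;> decide

end Pool.Agent.H40.AE
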