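import Pool.Agent.H40.AE.Defs

/-!
# Decision lists do not separate the neighbourhoods of two opposite points
-/

set_option autoImplicit false

namespace Pool.Agent.H40.AE

open Finset MvPolynomial

section alg

variable {n : ℕ}

/-- Chevalley-Warning: a solution of a system of small degree is not unique, even if the
coordinates in `F` are kept. -/
theorem cw (T : List (MvPolynomial (Fin n) (ZMod 2))) (F : Finset (Fin n))
    (hc : tdeg T + F.card < n) (y : Ex n) (hy : Passes T y) :
    ∃ x, x ≠ y ∧ Passes T x ∧ ∀ i ∈ F, x i = y i := by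
  classical
  by_contra hno
  push Not at hno
  let f : (Fin T.length ⊕ Fin n) → MvPolynomial (Fin n) (ZMod 2) := fun a =>
    match a with
    | .inl a => T.get a
    | .inr i => X i - C (y i)
  let s : Finset (Fin T.length ⊕ Fin n) := univ.disjSum F
  have hdeg : ∑ a ∈ s, (f a).totalDegree < Fintype.card (Fin n) := by
    have e1 : ∑ a : Fin T.length, (f (.inl a)).totalDegree = tdeg T := by
      unfold tdeg
      rw [← List.sum_ofFn]
      congr 1
      apply List.ext_get
      · simp
      · intro i h1 h2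
        simp [f]
    have e2 : ∑ i ∈ F, (f (.inr i)).totalDegree ≤ F.card := by
      have := sum_le_card_nsmul F (fun i => (f (.inr i)).totalDegree) 1 (by
        intro i _
        show (X i - C (y i) : MvPolynomial (Fin n) (ZMod 2)).totalDegree ≤ 1
        refine (totalDegree_sub _ _).trans ?_
        rw [totalDegree_X, totalDegree_C]
        simp)
      simpa using this
    simp only [s]
    rw [sum_disjSum, e1, Fintype.card_fin]
    omega
  have hdvd := char_dvd_card_solutions_of_sum_lt (K := ZMod 2) 2 hdeg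
  have hsol : ∀ x : Ex n, (∀ a ∈ s, eval x (f a) = 0) ↔
      (Passes T x ∧ ∀ i ∈ F, x i = y i) := by
    intro x
    constructor
    · intro h
      refine ⟨?_, ?_⟩
      · intro p hp
        obtain ⟨a, rfl⟩ := List.get_of_mem hp
        exact h (.inl a) (by simp [s])
      · intro i hi
        have := h (.inr i) (by simp [s, hi])
        simp only [f, map_sub, eval_X, eval_C] at this
        exact sub_eq_zero.mp this
    · rintro ⟨h1, h2⟩ a ha
      rcases a with a | i
      · exact h1 _ (List.get_mem T a)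
      · have hi : i ∈ F := by simpa [s] using ha
        simp [f, h2 i hi]
  have hcard : Nat.card {x : Ex n // ∀ a ∈ s, eval x (f a) = 0} = 1 := by
    rw [Nat.card_eq_one_iff_exists]
    refine ⟨⟨y, (hsol y).mpr ⟨hy, fun _ _ => rfl⟩⟩, ?_⟩
    rintro ⟨x, hx⟩
    obtain ⟨h1, h2⟩ := (hsol x).mp hx
    by_contra hne
    have hne' : x ≠ y := fun h => hne (Subtype.ext h)
    obtain ⟨i, hi, hi'⟩ := hno x hne' h1
    exact hi' (h2 i hi)
  rw [Fintype.card_eq_nat_card, hcard] at hdvd
  exact absurd hdvd (by norm_num)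

/-- If `B` is a set of coordinates and `c` a point, then a system that has a solution which agrees
with `c` outside `B` has such a solution which agrees with `c` in all but `tdeg T` coordinates. -/
theorem near (T : List (MvPolynomial (Fin n) (ZMod 2))) (B : Finset (Fin n)) (c : Ex n) :
    ∀ (w : ℕ) (y : Ex n), (B.filter fun i => y i ≠ c i).card = w → Passes T y →
      (∀ i, i ∉ B → y i = c i) →
      ∃ x, Passes T x ∧ (∀ i, i ∉ B → x i = c i) ∧ (B.filter fun i => x i ≠ c i).card ≤ tdeg T := by
  classical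
  intro w
  induction w using Nat.strong_induction_on with
  | _ w ih =>
    intro y hw hy hB
    by_cases hle : w ≤ tdeg T
    · exact ⟨y, hy, hB, by omega⟩
    · set D := B.filter fun i => y i ≠ c i with hD
      have hDc : Dᶜ.card = n - D.card := by rw [card_compl, Fintype.card_fin]
      have hDn : D.card ≤ n := by simpa using card_le_univ D
      obtain ⟨x, hne, h1, h2⟩ := cw T Dᶜ (by omega) y hy
      have hsub : (B.filter fun i => x i ≠ c i) ⊆ D := by
        intro i hi
        have hi' := mem_filter.1 hi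
        by_contra h
        have h3 := h2 i (mem_compl.2 h)
        rw [hD, mem_filter, not_and, not_not] at h
        exact hi'.2 (h3.trans (h hi'.1))
      have hlt : (B.filter fun i => x i ≠ c i).card < w := by
        rw [← hw]
        refine card_lt_card (lt_of_le_of_ne hsub fun h => hne ?_)
        funext i
        by_cases hi : i ∈ D
        · have h4 : x i ≠ c i := by
            rw [← h] at hi
            exact (mem_filter.1 hi).2
          have h5 : y i ≠ c i := (mem_filter.1 hi).2
          have h6 : ∀ p q s : ZMod 2, p ≠ s → q ≠ s → p = q := by decide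
          exact h6 _ _ _ h4 h5
        · exact h2 i (mem_compl.2 hi)
      refine ih _ hlt x rfl h1 fun i hi => ?_
      have h7 : i ∉ D := fun h => hi (mem_filter.1 h).1
      rw [h2 i (mem_compl.2 h7)]
      exact hB i hi

theorem passes_append {T T' : List (MvPolynomial (Fin n) (ZMod 2))} {x : Ex n} :
    Passes (T ++ T') x ↔ Passes T x ∧ Passes T' x := by
  simp only [Passes, List.mem_append]
  constructor
  · intro h
    exact ⟨fun p hp => h p (Or.inl hp), fun p hp => h p (Or.inr hp)⟩
  · rintro ⟨h1, h2⟩ p (hp | hp)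
    · exact h1 p hp
    · exact h2 p hp

theorem tdeg_append (T T' : List (MvPolynomial (Fin n) (ZMod 2))) :
    tdeg (T ++ T') = tdeg T + tdeg T' := by
  simp [tdeg]

end alg

section hit

variable {ι : Type*} [DecidableEq ι] [Fintype ι]

/-- A small set that meets all members of a family of large sets. -/
theorem exists_hit (q : ℕ) (hq : 1 ≤ q) : ∀ (t : ℕ) (F : List (Finset ι)),
    (∀ S ∈ F, q ≤ S.card) → F.length * (Fintype.card ι - q) ^ t < Fintype.card ι ^ t →
      ∃ D : Finset ι, D.card ≤ t ∧ (∀ i ∈ D, ∃ S ∈ F, i ∈ S) ∧ ∀ S ∈ F, ∃ i ∈ S, i ∈ D := by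
  intro t
  induction t with
  | zero =>
    intro F _ hF
    rw [pow_zero, pow_zero, mul_one, Nat.lt_one_iff] at hF
    rw [List.eq_nil_of_length_eq_zero hF]
    exact ⟨∅, by simp, by simp, by simp⟩
  | succ t ih =>
    intro F hS hF
    rcases Nat.eq_zero_or_pos F.length with h0 | h0
    · rw [List.eq_nil_of_length_eq_zero h0]
      exact ⟨∅, by simp, by simp, by simp⟩
    set N := Fintype.card ι with hN
    -- some element is in many sets
    have hsum : ∀ G : List (Finset ι), ∑ i : ι, (G.countP fun S => decide (i ∈ S)) =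
        (G.map Finset.card).sum := by
      intro G
      induction G with
      | nil => simp
      | cons S G ihG =>
        simp only [List.countP_cons, List.map_cons, List.sum_cons]
        rw [Finset.sum_add_distrib, ihG, add_comm]
        congr 1
        simp
    have hge : q * F.length ≤ (F.map Finset.card).sum := by
      have : ∀ G : List (Finset ι), (∀ S ∈ G, q ≤ S.card) → q * G.length ≤ (G.map Finset.card).sum := by
        intro G
        induction G with
        | nil => simp
        | cons S G ihG =>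
          intro hG
          have h1 := hG S (by simp)
          have h2 := ihG fun S hS => hG S (by simp [hS])
          simp only [List.length_cons, List.map_cons, List.sum_cons]
          rw [mul_add, mul_one]
          omega
      exact this F hS
    have hqN : q ≤ N := by
      obtain ⟨S, hSF⟩ := List.exists_mem_of_length_pos h0
      exact (hS S hSF).trans (Finset.card_le_univ S)
    obtain ⟨i, hi⟩ : ∃ i : ι, q * F.length ≤ N * F.countP fun S => decide (i ∈ S) := by
      by_contra hcon
      push Not at hcon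
      have hNpos : 0 < N := by omega
      have : Nonempty ι := Fintype.card_pos_iff.1 hNpos
      have h1 : ∑ i : ι, N * (F.countP fun S => decide (i ∈ S)) < ∑ _i : ι, q * F.length :=
        Finset.sum_lt_sum_of_nonempty univ_nonempty fun i _ => hcon i
      rw [← Finset.mul_sum, hsum, Finset.sum_const, Finset.card_univ, smul_eq_mul] at h1
      exact absurd (Nat.lt_of_mul_lt_mul_left h1) (not_lt.2 hge)
    set F' := F.filter fun S => !decide (i ∈ S) with hF'
    have hlen : F'.length + (F.countP fun S => decide (i ∈ S)) = F.length := by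
      have h5 := List.length_eq_countP_add_countP (l := F) (fun S : Finset ι => decide (i ∈ S))
      have h6 : (F.countP fun S => !decide (i ∈ S)) =
          F.countP fun S => decide ¬decide (i ∈ S) = true := by
        congr 1
        funext S
        simp
      rw [hF', ← List.countP_eq_length_filter, h6]
      omega
    have hlen' : N * F'.length ≤ (N - q) * F.length := by
      have h1 : N * F'.length + N * (F.countP fun S => decide (i ∈ S)) = N * F.length := by
        rw [← mul_add, hlen]
      rw [Nat.sub_mul]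
      omega
    have hpos : 0 < F.countP fun S => decide (i ∈ S) := by
      by_contra h
      have h1 : (F.countP fun S => decide (i ∈ S)) = 0 := by omega
      rw [h1, mul_zero] at hi
      have : 0 < q * F.length := Nat.mul_pos hq h0
      omega
    obtain ⟨D, hD1, hD2, hD3⟩ := ih F' (fun S hSF => hS S (List.mem_filter.1 hSF).1) (by
      have hNpos : 0 < N := by omega
      have h1 : N * (F'.length * (N - q) ^ t) < N * N ^ t := by
        calc N * (F'.length * (N - q) ^ t) = (N * F'.length) * (N - q) ^ t := by ring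
          _ ≤ ((N - q) * F.length) * (N - q) ^ t := Nat.mul_le_mul_right _ hlen'
          _ = F.length * (N - q) ^ (t + 1) := by ring
          _ < N ^ (t + 1) := hF
          _ = N * N ^ t := by ring
      exact Nat.lt_of_mul_lt_mul_left h1)
    refine ⟨insert i D, ?_, ?_, ?_⟩
    · exact (Finset.card_insert_le _ _).trans (by omega)
    · intro c hc
      rcases mem_insert.1 hc with rfl | hc
      · obtain ⟨S, hSF, hSi⟩ := List.countP_pos_iff.1 hpos
        exact ⟨S, hSF, of_decide_eq_true hSi⟩
      · obtain ⟨S, hSF, hSc⟩ := hD2 c hc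
        exact ⟨S, (List.mem_filter.1 hSF).1, hSc⟩
    · intro S hSF
      by_cases h : i ∈ S
      · exact ⟨i, h, mem_insert_self _ _⟩
      · obtain ⟨c, hc, hcD⟩ := hD3 S (List.mem_filter.2 ⟨hSF, by simp [h]⟩)
        exact ⟨c, hc, mem_insert_of_mem hcD⟩

end hit


section twins

variable {n : ℕ}

/-- The coordinates of `B` where the literals of `r` want the value of `P`. -/
def want (B : Finset (Fin n)) (P : Ex n) (r : Rule n) : Finset (Fin n) :=
  B.filter fun i => (i ∈ r.pos ∧ P i = 1) ∨ (i ∈ r.neg ∧ P i = 0)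

/-- The points that agree with `P` outside `B` and on `E`, and with `P'` on `E'`. -/
def Box (B : Finset (Fin n)) (P P' : Ex n) (E E' : Finset (Fin n)) (x : Ex n) : Prop :=
  (∀ i, i ∉ B → x i = P i) ∧ (∀ i ∈ E, x i = P i) ∧ ∀ i ∈ E', x i = P' i

theorem want_eq {B : Finset (Fin n)} {P x : Ex n} {r : Rule n} (hx : Lits r x) :
    ∀ i ∈ want B P r, x i = P i := by
  intro i hi
  rcases (mem_filter.1 hi).2 with ⟨h1, h2⟩ | ⟨h1, h2⟩
  · rw [h2, hx.1 i h1]
  · rw [h2, hx.2 i h1]

theorem zmod_two_cases : ∀ p q : ZMod 2, p ≠ q → (p = 1 ∨ q = 1) ∧ (p = 0 ∨ q = 0) := by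
  decide

theorem lits_of_box {B : Finset (Fin n)} {P P' x y : Ex n} {r : Rule n}
    (hop : ∀ i ∈ B, P i ≠ P' i) (hy : Lits r y) (hyP : ∀ i, i ∉ B → y i = P i)
    (hx : Box B P P' (want B P r) (want B P' r) x) : Lits r x := by
  refine ⟨fun i hi => ?_, fun i hi => ?_⟩
  · by_cases hB : i ∈ B
    · rcases (zmod_two_cases _ _ (hop i hB)).1 with h | h
      · rw [hx.2.1 i (mem_filter.2 ⟨hB, Or.inl ⟨hi, h⟩⟩), h]
      · rw [hx.2.2 i (mem_filter.2 ⟨hB, Or.inl ⟨hi, h⟩⟩), h]
    · rw [hx.1 i hB, ← hyP i hB]
      exact hy.1 i hi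
  · by_cases hB : i ∈ B
    · rcases (zmod_two_cases _ _ (hop i hB)).2 with h | h
      · rw [hx.2.1 i (mem_filter.2 ⟨hB, Or.inr ⟨hi, h⟩⟩), h]
      · rw [hx.2.2 i (mem_filter.2 ⟨hB, Or.inr ⟨hi, h⟩⟩), h]
    · rw [hx.1 i hB, ← hyP i hB]
      exact hy.2 i hi

/-- One decision list becomes constant on a smaller box and a variety of larger degree. -/
theorem list_step (B : Finset (Fin n)) (P P' : Ex n) (hop : ∀ i ∈ B, P i ≠ P' i)
    (D D' : Finset (Fin n)) (q w : ℕ) (d : ZMod 2) :
    ∀ (L : List (Rule n)), (∀ r ∈ L, tdeg r.test ≤ w) →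
      (∀ r ∈ L, (want B P r ∩ D').Nonempty ∨ (want B P r).card ≤ q) →
      (∀ r ∈ L, (want B P' r ∩ D).Nonempty ∨ (want B P' r \ D').card ≤ q) →
      ∀ (E E' : Finset (Fin n)) (T : List (MvPolynomial (Fin n) (ZMod 2))),
        E ⊆ B → E' ⊆ B → D ⊆ E → D' ⊆ E' → (∃ y, Passes T y ∧ Box B P P' E E' y) →
        ∃ (F F' : Finset (Fin n)) (T' : List (MvPolynomial (Fin n) (ZMod 2))),
          F ⊆ B ∧ F' ⊆ B ∧ E ⊆ F ∧ E' ⊆ F' ∧ F.card ≤ E.card + q ∧ F'.card ≤ E'.card + q ∧
          tdeg T' ≤ tdeg T + w ∧ (∀ x, Passes T' x → Passes T x) ∧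
          (∃ y, Passes T' y ∧ Box B P P' F F' y) ∧
          ∃ c, ∀ x, Passes T' x → Box B P P' F F' x → run x d L = c := by
  classical
  intro L
  induction L with
  | nil =>
    intro _ _ _ E E' T hE hE' _ _ hT
    exact ⟨E, E', T, hE, hE', subset_refl _, subset_refl _, by omega, by omega, by omega,
      fun _ h => h, hT, d, fun x _ _ => rfl⟩
  | cons r L ih =>
    intro hw h1 h2 E E' T hE hE' hD hD' hT
    by_cases h : ∃ y, (Passes T y ∧ Box B P P' E E' y) ∧ (Lits r y ∧ Passes r.test y)
    · obtain ⟨y, ⟨hyT, hyB⟩, hyL, hyt⟩ := h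
      have hw1 : (want B P r).card ≤ q := by
        rcases h1 r (by simp) with hne | hle
        · exfalso
          obtain ⟨i, hi⟩ := hne
          rw [mem_inter] at hi
          have e1 := want_eq hyL i hi.1
          have e2 := hyB.2.2 i (hD' hi.2)
          exact hop i (mem_filter.1 hi.1).1 (e1.symm.trans e2)
        · exact hle
      have hw2 : (want B P' r \ D').card ≤ q := by
        rcases h2 r (by simp) with hne | hle
        · exfalso
          obtain ⟨i, hi⟩ := hne
          rw [mem_inter] at hi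
          have e1 := want_eq hyL i hi.1
          have e2 := hyB.2.1 i (hD hi.2)
          exact hop i (mem_filter.1 hi.1).1 (e2.symm.trans e1)
        · exact hle
      refine ⟨E ∪ want B P r, E' ∪ want B P' r, T ++ r.test,
        union_subset hE (filter_subset _ _), union_subset hE' (filter_subset _ _),
        subset_union_left, subset_union_left, ?_, ?_, ?_, fun x hx => (passes_append.mp hx).1,
        ?_, r.out, ?_⟩
      · exact (card_union_le _ _).trans (by omega)
      · have e : E' ∪ want B P' r = E' ∪ (want B P' r \ D') := by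
          ext i
          simp only [mem_union, mem_sdiff]
          constructor
          · rintro (hi | hi)
            · exact Or.inl hi
            · by_cases hiD : i ∈ D'
              · exact Or.inl (hD' hiD)
              · exact Or.inr ⟨hi, hiD⟩
          · rintro (hi | hi)
            · exact Or.inl hi
            · exact Or.inr hi.1
        rw [e]
        exact (card_union_le _ _).trans (by omega)
      · rw [tdeg_append]
        have := hw r (by simp)
        omega
      · refine ⟨y, passes_append.mpr ⟨hyT, hyt⟩, hyB.1, ?_, ?_⟩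
        · intro i hi
          rcases mem_union.1 hi with hi | hi
          · exact hyB.2.1 i hi
          · exact want_eq hyL i hi
        · intro i hi
          rcases mem_union.1 hi with hi | hi
          · exact hyB.2.2 i hi
          · exact want_eq hyL i hi
      · intro x hx hxB
        simp only [run]
        rw [if_pos]
        refine ⟨lits_of_box hop hyL hyB.1 ⟨hxB.1, fun i hi => hxB.2.1 i (mem_union_right _ hi),
          fun i hi => hxB.2.2 i (mem_union_right _ hi)⟩, (passes_append.mp hx).2⟩
    · obtain ⟨F, F', T', k1, k2, k3, k4, k5, k6, k7, k8, k9, c, k10⟩ :=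
        ih (fun r hr => hw r (by simp [hr])) (fun r hr => h1 r (by simp [hr]))
          (fun r hr => h2 r (by simp [hr])) E E' T hE hE' hD hD' hT
      refine ⟨F, F', T', k1, k2, k3, k4, k5, k6, k7, k8, k9, c, fun x hx hxB => ?_⟩
      simp only [run]
      rw [if_neg, k10 x hx hxB]
      intro hr
      exact h ⟨x, ⟨k8 x hx, hxB.1, fun i hi => hxB.2.1 i (k3 hi), fun i hi => hxB.2.2 i (k4 hi)⟩,
        hr⟩

/-- Finitely many decision lists. -/
theorem lists_step (B : Finset (Fin n)) (P P' : Ex n) (hop : ∀ i ∈ B, P i ≠ P' i)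
    (D D' : Finset (Fin n)) (hDB : D ⊆ B) (hDB' : D' ⊆ B) (hDD : Disjoint D D') (q : ℕ) {N : ℕ}
    (rules : Fin N → List (Rule n)) (default : Fin N → ZMod 2) (w : Fin N → ℕ)
    (hw : ∀ l, ∀ r ∈ rules l, tdeg r.test ≤ w l)
    (h1 : ∀ l, ∀ r ∈ rules l, (want B P r ∩ D').Nonempty ∨ (want B P r).card ≤ q)
    (h2 : ∀ l, ∀ r ∈ rules l, (want B P' r ∩ D).Nonempty ∨ (want B P' r \ D').card ≤ q)
    (s : Finset (Fin N)) :
    ∃ (F F' : Finset (Fin n)) (T' : List (MvPolynomial (Fin n) (ZMod 2))),
      F ⊆ B ∧ F' ⊆ B ∧ D ⊆ F ∧ D' ⊆ F' ∧ F.card ≤ D.card + s.card * q ∧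
      F'.card ≤ D'.card + s.card * q ∧ tdeg T' ≤ ∑ l ∈ s, w l ∧
      (∃ y, Passes T' y ∧ Box B P P' F F' y) ∧
      ∀ l ∈ s, ∃ c, ∀ x, Passes T' x → Box B P P' F F' x → run x (default l) (rules l) = c := by
  classical
  induction s using Finset.induction_on with
  | empty =>
    refine ⟨D, D', [], hDB, hDB', subset_refl _, subset_refl _, by simp, by simp, by simp [tdeg],
      ⟨fun i => if i ∈ D' then P' i else P i, ?_, ?_, ?_, ?_⟩, by simp⟩
    · intro p hp
      simp at hp
    · intro i hi
      show (if i ∈ D' then P' i else P i) = P i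
      rw [if_neg fun h => hi (hDB' h)]
    · intro i hi
      show (if i ∈ D' then P' i else P i) = P i
      rw [if_neg fun h => Finset.disjoint_left.1 hDD hi h]
    · intro i hi
      show (if i ∈ D' then P' i else P i) = P' i
      rw [if_pos hi]
  | insert a s ha ih =>
    obtain ⟨F, F', T, k1, k2, k3, k4, k5, k6, k7, k8, k9⟩ := ih
    obtain ⟨G, G', T', m1, m2, m3, m4, m5, m6, m7, m8, m9, c, m10⟩ :=
      list_step B P P' hop D D' q (w a) (default a) (rules a) (hw a) (h1 a) (h2 a) F F' T k1 k2
        k3 k4 k8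
    have hmul : (s.card + 1) * q = s.card * q + q := by ring
    refine ⟨G, G', T', m1, m2, k3.trans m3, k4.trans m4, ?_, ?_, ?_, m9, ?_⟩
    · rw [card_insert_of_notMem ha, hmul]
      omega
    · rw [card_insert_of_notMem ha, hmul]
      omega
    · rw [sum_insert ha]
      omega
    · intro l hl
      rcases mem_insert.1 hl with rfl | hl
      · exact ⟨c, m10⟩
      · obtain ⟨c', hc'⟩ := k9 l hl
        exact ⟨c', fun x hx hxB => hc' x (m8 x hx)
          ⟨hxB.1, fun i hi => hxB.2.1 i (m3 hi), fun i hi => hxB.2.2 i (m4 hi)⟩⟩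

/-- Two points, one close to `P` and the other close to the opposite point `P'`, at which all the
decision lists have the same values. -/
theorem twins (B : Finset (Fin n)) (P P' : Ex n) (hop : ∀ i ∈ B, P i ≠ P' i)
    (hout : ∀ i, i ∉ B → P i = P' i) (q t s k : ℕ) (hqt : s * (n - (q + 1)) ^ t < n ^ t) {N : ℕ}
    (rules : Fin N → List (Rule n)) (default : Fin N → ZMod 2)
    (hs : ∑ l, ((rules l).filter fun r => Wide r).length ≤ s) (w : Fin N → ℕ)
    (hw : ∀ l, ∀ r ∈ rules l, tdeg r.test ≤ w l) (hk : ∑ l, w l ≤ k) :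
    ∃ x x' : Ex n, (∀ i, i ∉ B → x i = P i) ∧ (∀ i, i ∉ B → x' i = P' i) ∧
      (B.filter fun i => x i ≠ P i).card ≤ t + N * q + k ∧
      (B.filter fun i => x' i ≠ P' i).card ≤ t + N * q + k ∧
      ∀ l, run x (default l) (rules l) = run x' (default l) (rules l) := by
  classical
  -- the wide rules
  set R : List (Rule n) := (List.ofFn fun l => (rules l).filter fun r => Wide r).flatten with hR
  have hRlen : R.length ≤ s := by
    rw [hR, List.length_flatten, List.map_ofFn, List.sum_ofFn]
    exact hs
  have hRmem : ∀ l, ∀ r ∈ rules l, Wide r → r ∈ R := by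
    intro l r hr hW
    rw [hR, List.mem_flatten]
    exact ⟨(rules l).filter fun r => Wide r, List.mem_ofFn.2 ⟨l, rfl⟩,
      List.mem_filter.2 ⟨hr, by simpa using hW⟩⟩
  have hnarrow : ∀ (Q : Ex n) (r : Rule n), ¬ Wide r → want B Q r = ∅ := by
    intro Q r hr
    unfold Wide at hr
    rw [Finset.not_nonempty_iff_eq_empty] at hr
    unfold want
    rw [Finset.filter_eq_empty_iff]
    rintro i - (h | h)
    · have : i ∈ r.pos ∪ r.neg := mem_union_left _ h.1
      rw [hr] at this
      simp at this
    · have : i ∈ r.pos ∪ r.neg := mem_union_right _ h.1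
      rw [hr] at this
      simp at this
  have hhit : ∀ F : List (Finset (Fin n)), F.length ≤ s → (∀ S ∈ F, q + 1 ≤ S.card) →
      ∃ D : Finset (Fin n), D.card ≤ t ∧ (∀ i ∈ D, ∃ S ∈ F, i ∈ S) ∧ ∀ S ∈ F, ∃ i ∈ S, i ∈ D := by
    intro F hF hS
    refine exists_hit (q + 1) (by omega) t F hS ?_
    rw [Fintype.card_fin]
    exact (Nat.mul_le_mul_right _ hF).trans_lt hqt
  obtain ⟨D', hD1, hD2, hD3⟩ := hhit ((R.map (want B P)).filter fun S => decide (q + 1 ≤ S.card))
    ((List.length_filter_le _ _).trans (by rw [List.length_map]; exact hRlen))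
    (fun S hS => of_decide_eq_true (List.mem_filter.1 hS).2)
  obtain ⟨D, hE1, hE2, hE3⟩ := hhit
    ((R.map fun r => want B P' r \ D').filter fun S => decide (q + 1 ≤ S.card))
    ((List.length_filter_le _ _).trans (by rw [List.length_map]; exact hRlen))
    (fun S hS => of_decide_eq_true (List.mem_filter.1 hS).2)
  have hDB' : D' ⊆ B := by
    intro i hi
    obtain ⟨S, hS, hiS⟩ := hD2 i hi
    obtain ⟨r, -, rfl⟩ := List.mem_map.1 (List.mem_filter.1 hS).1
    exact (mem_filter.1 hiS).1
  have hDsub : ∀ i ∈ D, i ∈ B ∧ i ∉ D' := by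
    intro i hi
    obtain ⟨S, hS, hiS⟩ := hE2 i hi
    obtain ⟨r, -, rfl⟩ := List.mem_map.1 (List.mem_filter.1 hS).1
    exact ⟨(mem_filter.1 (mem_sdiff.1 hiS).1).1, (mem_sdiff.1 hiS).2⟩
  have hDD : Disjoint D D' := Finset.disjoint_left.2 fun i hi => (hDsub i hi).2
  have h1 : ∀ l, ∀ r ∈ rules l, (want B P r ∩ D').Nonempty ∨ (want B P r).card ≤ q := by
    intro l r hr
    by_cases hW : Wide r
    · by_cases hc : (want B P r).card ≤ q
      · exact Or.inr hc
      · push Not at hc
        obtain ⟨i, hi, hiD⟩ := hD3 (want B P r) (List.mem_filter.2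
          ⟨List.mem_map.2 ⟨r, hRmem l r hr hW, rfl⟩, decide_eq_true (by omega)⟩)
        exact Or.inl ⟨i, mem_inter.2 ⟨hi, hiD⟩⟩
    · right
      rw [hnarrow P r hW]
      simp
  have h2 : ∀ l, ∀ r ∈ rules l, (want B P' r ∩ D).Nonempty ∨ (want B P' r \ D').card ≤ q := by
    intro l r hr
    by_cases hW : Wide r
    · by_cases hc : (want B P' r \ D').card ≤ q
      · exact Or.inr hc
      · push Not at hc
        obtain ⟨i, hi, hiD⟩ := hE3 (want B P' r \ D') (List.mem_filter.2
          ⟨List.mem_map.2 ⟨r, hRmem l r hr hW, rfl⟩, decide_eq_true (by omega)⟩)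
        exact Or.inl ⟨i, mem_inter.2 ⟨(mem_sdiff.1 hi).1, hiD⟩⟩
    · right
      rw [hnarrow P' r hW]
      simp
  obtain ⟨F, F', T, k1, k2, k3, k4, k5, k6, k7, ⟨y, hyT, hyB⟩, k9⟩ :=
    lists_step B P P' hop D D' (fun i hi => (hDsub i hi).1) hDB' hDD q rules default w hw h1 h2
      univ
  rw [Finset.card_univ, Fintype.card_fin] at k5 k6
  have hFF : ∀ i ∈ F, i ∉ F' := by
    intro i hi hi'
    exact hop i (k1 hi) ((hyB.2.1 i hi).symm.trans (hyB.2.2 i hi'))
  have hcenter : ∀ Q : Ex n, ∃ x, Passes T x ∧ Box B P P' F F' x ∧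
      ((B \ (F ∪ F')).filter fun i => x i ≠ Q i).card ≤ tdeg T := by
    intro Q
    set c : Ex n := fun i => if i ∈ B \ (F ∪ F') then Q i else y i with hc
    have hcy : ∀ i, i ∉ B \ (F ∪ F') → c i = y i := fun i hi => if_neg hi
    have hcQ : ∀ i, i ∈ B \ (F ∪ F') → c i = Q i := fun i hi => if_pos hi
    obtain ⟨x, hx1, hx2, hx3⟩ := near T (B \ (F ∪ F')) c _ y rfl hyT fun i hi => (hcy i hi).symm
    have hxy : ∀ i, i ∉ B \ (F ∪ F') → x i = y i := fun i hi => (hx2 i hi).trans (hcy i hi)
    refine ⟨x, hx1, ⟨fun i hi => ?_, fun i hi => ?_, fun i hi => ?_⟩, ?_⟩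
    · rw [hxy i fun h => hi (mem_sdiff.1 h).1]
      exact hyB.1 i hi
    · rw [hxy i fun h => (mem_sdiff.1 h).2 (mem_union_left _ hi)]
      exact hyB.2.1 i hi
    · rw [hxy i fun h => (mem_sdiff.1 h).2 (mem_union_right _ hi)]
      exact hyB.2.2 i hi
    · refine le_trans (Finset.card_le_card ?_) hx3
      intro i hi
      have hi' := mem_filter.1 hi
      exact mem_filter.2 ⟨hi'.1, by rw [hcQ i hi'.1]; exact hi'.2⟩
  obtain ⟨x, hx1, hx2, hx3⟩ := hcenter P
  obtain ⟨x', hx1', hx2', hx3'⟩ := hcenter P'
  have hkT : tdeg T ≤ k := k7.trans hk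
  refine ⟨x, x', hx2.1, fun i hi => (hx2'.1 i hi).trans (hout i hi), ?_, ?_, ?_⟩
  · have hsub : (B.filter fun i => x i ≠ P i) ⊆ F' ∪ ((B \ (F ∪ F')).filter fun i => x i ≠ P i) := by
      intro i hi
      have hi' := mem_filter.1 hi
      by_cases h : i ∈ F'
      · exact mem_union_left _ h
      · refine mem_union_right _ (mem_filter.2 ⟨mem_sdiff.2 ⟨hi'.1, ?_⟩, hi'.2⟩)
        rw [mem_union, not_or]
        exact ⟨fun h' => hi'.2 (hx2.2.1 i h'), h⟩
    refine (Finset.card_le_card hsub).trans ((card_union_le _ _).trans ?_)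
    omega
  · have hsub : (B.filter fun i => x' i ≠ P' i) ⊆
        F ∪ ((B \ (F ∪ F')).filter fun i => x' i ≠ P' i) := by
      intro i hi
      have hi' := mem_filter.1 hi
      by_cases h : i ∈ F
      · exact mem_union_left _ h
      · refine mem_union_right _ (mem_filter.2 ⟨mem_sdiff.2 ⟨hi'.1, ?_⟩, hi'.2⟩)
        rw [mem_union, not_or]
        exact ⟨h, fun h' => hi'.2 (hx2'.2.2 i h')⟩
    refine (Finset.card_le_card hsub).trans ((card_union_le _ _).trans ?_)
    omega
  · intro l
    obtain ⟨c, hc⟩ := k9 l (mem_univ l)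
    rw [hc x hx1 hx2, hc x' hx1' hx2']

end twins



end Pool.Agent.H40.AE
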