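import Pool.Agent.H40.AE.Twins

/-!
# The choice of the parameters in `twins`
-/

set_option autoImplicit false

namespace Pool.Agent.H40.AE

open Finset MvPolynomial

theorem exists_qt (n L s : ℕ) (hs : 1 ≤ s) (hn : 1 ≤ n) (hL : 1 ≤ L) :
    ∃ q t : ℕ, s * (n - (q + 1)) ^ t < n ^ t ∧
      t + L * q ≤ ⌊2 * Real.sqrt (n * L * Real.log s)⌋₊ + 1 := by
  have hnr : (0 : ℝ) < n := by exact_mod_cast hn
  have hLr : (0 : ℝ) < L := by exact_mod_cast hL
  have hsr : (1 : ℝ) ≤ s := by exact_mod_cast hs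
  have hlog : 0 ≤ Real.log s := Real.log_nonneg hsr
  set κ := Real.sqrt (n * Real.log s / L) with hκ
  set ρ := Real.sqrt (n * L * Real.log s) with hρ
  have hκ0 : 0 ≤ κ := Real.sqrt_nonneg _
  have hρ0 : 0 ≤ ρ := Real.sqrt_nonneg _
  have hκ2 : κ * κ = n * Real.log s / L := Real.mul_self_sqrt (by positivity)
  have hρκ : ρ = L * κ := by
    have h1 : ρ * ρ = (L * κ) * (L * κ) := by
      rw [Real.mul_self_sqrt (by positivity)]
      calc (n : ℝ) * L * Real.log s = L * L * (n * Real.log s / L) := by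
            field_simp
        _ = L * L * (κ * κ) := by rw [hκ2]
        _ = _ := by ring
    exact (mul_self_inj hρ0 (by positivity)).1 h1
  have hρκ2 : ρ * κ = n * Real.log s := by
    rw [hρκ, mul_assoc, hκ2]
    field_simp
  set q := ⌈κ⌉₊ - 1 with hq
  have hq1 : κ ≤ (q : ℝ) + 1 := by
    have h1 := Nat.le_ceil κ
    have h2 : ⌈κ⌉₊ ≤ q + 1 := by omega
    have h3 : (⌈κ⌉₊ : ℝ) ≤ (q : ℝ) + 1 := by exact_mod_cast h2
    linarith
  have hq2 : (q : ℝ) ≤ κ := by
    rcases Nat.eq_zero_or_pos ⌈κ⌉₊ with h | h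
    · have : q = 0 := by omega
      rw [this]
      simpa using hκ0
    · have h1 := Nat.ceil_lt_add_one hκ0
      have h2 : (q : ℝ) + 1 = ⌈κ⌉₊ := by
        have : q + 1 = ⌈κ⌉₊ := by omega
        exact_mod_cast this
      linarith
  have hq0 : (0 : ℝ) < (q : ℝ) + 1 := by positivity
  set t := ⌊n * Real.log s / ((q : ℝ) + 1)⌋₊ + 1 with ht
  have ht1 : n * Real.log s / ((q : ℝ) + 1) < t := by
    rw [ht]
    push_cast
    exact Nat.lt_floor_add_one _
  have ht2 : (t : ℝ) ≤ ρ + 1 := by
    have h1 : ((⌊n * Real.log s / ((q : ℝ) + 1)⌋₊ : ℕ) : ℝ) ≤ n * Real.log s / ((q : ℝ) + 1) :=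
      Nat.floor_le (by positivity)
    have h2 : n * Real.log s / ((q : ℝ) + 1) ≤ ρ := by
      rw [div_le_iff₀ hq0, ← hρκ2]
      exact mul_le_mul_of_nonneg_left hq1 hρ0
    rw [ht]
    push_cast
    linarith
  refine ⟨q, t, ?_, ?_⟩
  · rcases le_or_gt n (q + 1) with h | h
    · have h1 : n - (q + 1) = 0 := by omega
      rw [h1, ht, pow_succ, mul_zero, mul_zero]
      positivity
    · have h1 : (((n - (q + 1) : ℕ) : ℝ)) = n - (q + 1) := by
        rw [Nat.cast_sub h.le]
        push_cast
        ring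
      have h2 : (n : ℝ) - (q + 1) ≤ n * Real.exp (-(((q : ℝ) + 1) / n)) := by
        have h3 := Real.add_one_le_exp (-(((q : ℝ) + 1) / n))
        have h4 := mul_le_mul_of_nonneg_left h3 hnr.le
        have h5 : (n : ℝ) * (-(((q : ℝ) + 1) / n) + 1) = n - (q + 1) := by
          field_simp
          ring
        rw [h5] at h4
        exact h4
      have h6 : (0 : ℝ) ≤ (n : ℝ) - (q + 1) := by
        have : ((q + 1 : ℕ) : ℝ) < n := by exact_mod_cast h
        push_cast at this
        linarith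
      have h7 : (s : ℝ) * ((n : ℝ) - (q + 1)) ^ t < (n : ℝ) ^ t := by
        calc (s : ℝ) * ((n : ℝ) - (q + 1)) ^ t ≤
              s * (n * Real.exp (-(((q : ℝ) + 1) / n))) ^ t :=
              mul_le_mul_of_nonneg_left (pow_le_pow_left₀ h6 h2 t) (by linarith)
          _ = (s * Real.exp (-(((q : ℝ) + 1) / n)) ^ t) * (n : ℝ) ^ t := by
              rw [mul_pow]
              ring
          _ < 1 * (n : ℝ) ^ t := by
              apply mul_lt_mul_of_pos_right _ (by positivity)
              rw [← Real.exp_nat_mul]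
              have h8 : (s : ℝ) = Real.exp (Real.log s) := (Real.exp_log (by linarith)).symm
              nth_rewrite 1 [h8]
              rw [← Real.exp_add, Real.exp_lt_one_iff]
              rw [div_lt_iff₀ hq0] at ht1
              have h9 : Real.log s < t * (((q : ℝ) + 1) / n) := by
                rw [mul_div_assoc', lt_div_iff₀ hnr]
                linarith
              linarith
          _ = (n : ℝ) ^ t := one_mul _
      rw [← h1] at h7
      exact_mod_cast h7
  · have h1 : (t : ℝ) + L * q ≤ 2 * ρ + 1 := by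
      have h2 : (L : ℝ) * q ≤ L * κ := mul_le_mul_of_nonneg_left hq2 hLr.le
      rw [← hρκ] at h2
      linarith
    have h3 : ((t + L * q : ℕ) : ℝ) ≤ 2 * ρ + 1 := by
      push_cast
      exact h1
    have h4 := Nat.le_floor h3
    rwa [Nat.floor_add_one (by positivity)] at h4

/-- Two points, one close to `P` and the other close to the opposite point `P'`, at which all the
decision lists have the same values. -/
theorem twins_wid {n : ℕ} (B : Finset (Fin n)) (P P' : Ex n) (hop : ∀ i ∈ B, P i ≠ P' i)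
    (hout : ∀ i, i ∉ B → P i = P' i) (D : Lists n) (L s k : ℕ) (hD : D.Bound L s k) :
    ∃ x x' : Ex n, (∀ i, i ∉ B → x i = P i) ∧ (∀ i, i ∉ B → x' i = P' i) ∧
      (B.filter fun i => x i ≠ P i).card ≤ wid n L s + k ∧
      (B.filter fun i => x' i ≠ P' i).card ≤ wid n L s + k ∧ D.vals x = D.vals x' := by
  classical
  obtain ⟨hL, hs, w, hw, hk⟩ := hD
  obtain ⟨q, t, h1, h2⟩ : ∃ q t : ℕ,
      (∑ l, ((D.rules l).filter fun r => Wide r).length) * (n - (q + 1)) ^ t < n ^ t ∧
        t + D.len * q ≤ wid n L s := by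
    rcases Nat.eq_zero_or_pos (∑ l, ((D.rules l).filter fun r => Wide r).length) with h0 | h0
    · exact ⟨0, 0, by rw [h0]; simp, by simp⟩
    · have hs1 : 1 ≤ s := by omega
      obtain ⟨l, -, hl⟩ := Finset.exists_ne_zero_of_sum_ne_zero h0.ne'
      have hL1 : 1 ≤ L := by
        have := l.2
        omega
      have hn1 : 1 ≤ n := by
        obtain ⟨r, hr⟩ := List.exists_mem_of_length_pos (Nat.pos_of_ne_zero hl)
        have hr' := (List.mem_filter.1 hr).2
        obtain ⟨i, -⟩ : (r.pos ∪ r.neg).Nonempty := of_decide_eq_true hr'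
        have := i.2
        omega
      obtain ⟨q, t, h3, h4⟩ := exists_qt n L s hs1 hn1 hL1
      refine ⟨q, t, (Nat.mul_le_mul_right _ hs).trans_lt h3, ?_⟩
      unfold wid
      rw [if_neg (by omega)]
      exact le_trans (by gcongr) h4
  obtain ⟨x, x', k1, k2, k3, k4, k5⟩ := twins B P P' hop hout q t _ k h1 D.rules D.default
    (le_refl _) w hw hk
  exact ⟨x, x', k1, k2, k3.trans (by omega), k4.trans (by omega), funext k5⟩

end Pool.Agent.H40.AE
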